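import Pool.Agent.Lib.MP_4f3c81_gt.Boot

/-!
# The conjugated action
-/

open Filter Topology Asymptotics Set
open scoped ContDiff

namespace Pool.Agent.Lib.MP_4f3c81_gt

variable {X Z : Type} [NormedAddCommGroup X] [InnerProductSpace ℝ X]
  [NormedAddCommGroup Z] [InnerProductSpace ℝ Z]

/-- The conjugated action of a linear map `T` on `X × Z`, as a function of `(T, (x, z))`. -/
noncomputable def act (lam : Z →L[ℝ] ℝ) (j : ℕ) (q : QQ X Z) : X × Z :=
  (Real.exp (-(fb lam j q * Del lam j q)) • q.1 q.2.1, q.2.2)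

/-- The conjugating map. -/
noncomputable def Phi (lam : Z →L[ℝ] ℝ) (j : ℕ) (p : X × Z) : X × Z :=
  (Real.exp (bet lam j p.2 * eta (‖p.1‖ ^ 2 + ‖p.2‖ ^ 2)) • p.1, p.2)

/-- the nonlinear part of the action -/
noncomputable def gact (lam : Z →L[ℝ] ℝ) (j : ℕ) (q : QQ X Z) : X :=
  (Real.exp (-(fb lam j q * Del lam j q)) - 1) • q.1 q.2.1

theorem act_eq (lam : Z →L[ℝ] ℝ) (j : ℕ) (q : QQ X Z) :
    act lam j q = (q.1 q.2.1 + gact lam j q, q.2.2) := by
  unfold act gact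
  rw [sub_smul, one_smul, add_sub_cancel]

theorem contDiffOn_gact [CompleteSpace X] [CompleteSpace Z] (lam : Z →L[ℝ] ℝ) (j : ℕ) :
    ContDiffOn ℝ ((j + 1 : ℕ) : WithTop ℕ∞) (gact lam j) {q : QQ X Z | q.1 ∈ Inj X} := by
  have hU : IsOpen {q : QQ X Z | q.1 ∈ Inj X} := isOpen_Inj.preimage continuous_fst
  have hlip : LipschitzWith 1 (nu : QQ X Z → ℝ) := by
    have h := (LipschitzWith.prod_snd (α := X →L[ℝ] X) (β := X × Z))
    have h2 := (lipschitzWith_one_norm (E := X × Z)).comp h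
    have h3 : LipschitzWith 1 (fun q : QQ X Z => ‖q.2‖) := by simpa [Function.comp_def] using h2
    exact h3
  refine contDiffOn_of_cls hU hlip (j + 1)
    (w := fun q => nu q ^ j * (Lw q)⁻¹ * nu q) ?_ ?_ ?_ ?_
  · intro q _ hq
    have : q.2 = 0 := by simpa [nu] using hq
    unfold gact
    simp [this]
  · intro q hq
    have hq2 : q.2 ≠ 0 := mem_Om.1 hq.2
    have h1 := contDiffAt_Del lam j hq.1 hq2
    have h2 : ContDiffAt ℝ ∞ (fb lam j : QQ X Z → ℝ) q := (contDiff_fb lam j).contDiffAt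
    have h3 : ContDiffAt ℝ ∞ (fun q : QQ X Z => q.1 q.2.1) q :=
      (contDiff_fst.clm_apply (contDiff_fst.comp contDiff_snd)).contDiffAt
    have h4 : ContDiffAt ℝ ∞ (gact lam j) q :=
      (((h2.mul h1).neg.exp).sub contDiffAt_const).smul h3
    exact (h4.of_le (by exact_mod_cast le_top)).contDiffWithinAt
  · intro q₀ hq₀ h
    have h₀ : q₀.2 = 0 := by simpa [nu] using h
    have hT : q₀.1 ∈ Inj X := hq₀
    have hΩ : IsOpen (Om X Z) := isOpen_Om
    have c1 := ((C_b lam j (j + 1) q₀).mul hΩ (C_Del lam j hT h₀ (j + 1))).neg hΩ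
    have c2 := (c1.exp_sub_one hΩ (by
      simpa using (nu_pow_isBigO_one j q₀).mul (inv_Lw_isBigO_one q₀))).smul hΩ
      (C_Tx (j + 1) q₀)
    exact c2
  · intro q₀ hq₀ h
    have h₀ : q₀.2 = 0 := by simpa [nu] using h
    have h1 : (fun q : QQ X Z => (Lw q)⁻¹) =o[𝓝[Om X Z] q₀] (fun _ => (1 : ℝ)) :=
      (isLittleO_one_iff ℝ).2 (tendsto_inv_atTop_zero.comp (tendsto_Lw h₀))
    have h2 := h1.mul_isBigO (isBigO_refl (fun q : QQ X Z => nu q ^ (j + 1)) (𝓝[Om X Z] q₀))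
    refine (h2.congr_left ?_).congr_right ?_
    · intro q; ring
    · intro q; ring

theorem contDiffOn_act [CompleteSpace X] [CompleteSpace Z] (lam : Z →L[ℝ] ℝ) (j : ℕ) :
    ContDiffOn ℝ ((j + 1 : ℕ) : WithTop ℕ∞) (act lam j) {q : QQ X Z | q.1 ∈ Inj X} := by
  have h : act lam j = fun q : QQ X Z => (q.1 q.2.1 + gact lam j q, q.2.2) := by
    ext1 q; exact act_eq lam j q
  rw [h]
  have h1 : ContDiff ℝ ((j + 1 : ℕ) : WithTop ℕ∞) (fun q : QQ X Z => q.1 q.2.1) :=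
    contDiff_fst.clm_apply (contDiff_fst.comp contDiff_snd)
  have h2 : ContDiff ℝ ((j + 1 : ℕ) : WithTop ℕ∞) (fun q : QQ X Z => q.2.2) :=
    contDiff_snd.comp contDiff_snd
  exact (h1.contDiffOn.add (contDiffOn_gact lam j)).prodMk h2.contDiffOn

theorem Phi_zero (lam : Z →L[ℝ] ℝ) (j : ℕ) : Phi lam j (0 : X × Z) = 0 := by
  unfold Phi; simp

theorem act_zero (lam : Z →L[ℝ] ℝ) (j : ℕ) (T : X →L[ℝ] X) :
    act lam j (T, (0 : X × Z)) = 0 := by
  unfold act; simp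

theorem norm_act_sq (lam : Z →L[ℝ] ℝ) (j : ℕ) (q : QQ X Z) :
    ‖(act lam j q).1‖ ^ 2 + ‖(act lam j q).2‖ ^ 2 = fS lam j q := by
  unfold act fS fM fW
  simp only
  rw [norm_smul, mul_pow, Real.norm_of_nonneg (Real.exp_pos _).le, ← Real.exp_nat_mul]
  congr 3
  push_cast
  ring

theorem Phi_act (lam : Z →L[ℝ] ℝ) (j : ℕ) {T : X →L[ℝ] X} (hT : T ∈ Inj X) (p : X × Z) :
    Phi lam j (act lam j (T, p)) = (T (Phi lam j p).1, (Phi lam j p).2) := by
  by_cases hp : p = 0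
  · subst hp
    rw [act_zero, Phi_zero]
    simp
    rfl
  · have h1 := Del_spec lam j (q := (T, p)) hT hp
    have h2 := norm_act_sq lam j (T, p)
    have h3 : (act lam j (T, p)).2 = p.2 := rfl
    have h4 : (act lam j (T, p)).1 = Real.exp (-(fb lam j (T, p) * Del lam j (T, p))) • T p.1 :=
      rfl
    unfold Phi
    rw [h2, h3, h4]
    refine Prod.ext ?_ rfl
    simp only [map_smul, smul_smul]
    congr 1
    rw [← Real.exp_add]
    congr 1
    have h5 : fb lam j (T, p) = bet lam j p.2 := rfl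
    have h6 : fR (T, p) = ‖p.1‖ ^ 2 + ‖p.2‖ ^ 2 := rfl
    rw [h6] at h1
    rw [h5, h1]
    ring

theorem one_mem_Inj : ContinuousLinearMap.id ℝ X ∈ Inj X :=
  ⟨1, one_pos, fun x => by simp⟩

theorem Phi_injective (lam : Z →L[ℝ] ℝ) (j : ℕ) :
    Function.Injective (Phi lam j : X × Z → X × Z) := by
  intro p p' h
  have hz : p.2 = p'.2 := by
    have h1 := congrArg Prod.snd h
    exact h1
  have hx : Real.exp (bet lam j p.2 * eta (‖p.1‖ ^ 2 + ‖p.2‖ ^ 2)) • p.1 =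
      Real.exp (bet lam j p'.2 * eta (‖p'.1‖ ^ 2 + ‖p'.2‖ ^ 2)) • p'.1 := by
    have h1 := congrArg Prod.fst h
    exact h1
  rw [← hz] at hx
  by_cases hp : p = 0
  · subst hp
    have : p'.1 = 0 := by
      have h1 := hx.symm
      simpa [Real.exp_ne_zero] using h1
    exact Prod.ext this.symm hz
  · -- write `p'.1 = exp (-b D) p.1`
    set b := bet lam j p.2 with hb
    set R := ‖p.1‖ ^ 2 + ‖p.2‖ ^ 2 with hR
    set R' := ‖p'.1‖ ^ 2 + ‖p.2‖ ^ 2 with hR'
    set D := eta R' - eta R with hD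
    have h1 : p'.1 = Real.exp (-(b * D)) • p.1 := by
      have h2 : Real.exp (-(b * eta R')) • Real.exp (b * eta R) • p.1
          = Real.exp (-(b * eta R')) • Real.exp (b * eta R') • p'.1 := by rw [hx]
      rw [smul_smul, smul_smul, ← Real.exp_add, ← Real.exp_add, neg_add_cancel, Real.exp_zero,
        one_smul] at h2
      rw [← h2]
      congr 2
      rw [hD]; ring
    have hMW : 0 < ‖p.1‖ ^ 2 + ‖p.2‖ ^ 2 := fR_pos (q := ((0 : X →L[ℝ] X), p)) hp
    have hbb : |b| ≤ 1 / 4 := abs_bet_le lam j p.2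
    have hM : 0 ≤ ‖p.1‖ ^ 2 := by positivity
    have hW : 0 ≤ ‖p.2‖ ^ 2 := by positivity
    have h3 : R' = Real.exp (-2 * b * D) * ‖p.1‖ ^ 2 + ‖p.2‖ ^ 2 := by
      rw [hR', h1, norm_smul, mul_pow, Real.norm_of_nonneg (Real.exp_pos _).le, ← Real.exp_nat_mul]
      congr 3
      push_cast
      ring
    have h4 : D = eta (Real.exp (-2 * b * D) * ‖p.1‖ ^ 2 + ‖p.2‖ ^ 2) - eta R := by
      rw [← h3]
    have h5 : (0 : ℝ) = eta (Real.exp (-2 * b * 0) * ‖p.1‖ ^ 2 + ‖p.2‖ ^ 2) - eta R := by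
      rw [mul_zero, Real.exp_zero, one_mul, ← hR, sub_self]
    have h6 : D = 0 := (existsUnique_sol hbb hM hW hMW (eta R)).unique h4 h5
    rw [h6, mul_zero, neg_zero, Real.exp_zero, one_smul] at h1
    exact Prod.ext h1.symm hz

theorem act_id (lam : Z →L[ℝ] ℝ) (j : ℕ) (p : X × Z) :
    act lam j (ContinuousLinearMap.id ℝ X, p) = p := by
  apply Phi_injective lam j
  rw [Phi_act lam j one_mem_Inj]
  rfl

theorem comp_mem_Inj {S T : X →L[ℝ] X} (hS : S ∈ Inj X) (hT : T ∈ Inj X) :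
    S.comp T ∈ Inj X := by
  obtain ⟨c, hc, h⟩ := hS
  obtain ⟨d, hd, h'⟩ := hT
  refine ⟨c * d, by positivity, fun x => ?_⟩
  have h1 := h (T x)
  have h2 := h' x
  calc c * d * ‖x‖ = c * (d * ‖x‖) := by ring
    _ ≤ c * ‖T x‖ := by gcongr
    _ ≤ _ := h1

theorem act_comp (lam : Z →L[ℝ] ℝ) (j : ℕ) {S T : X →L[ℝ] X} (hS : S ∈ Inj X) (hT : T ∈ Inj X)
    (p : X × Z) : act lam j (S.comp T, p) = act lam j (S, act lam j (T, p)) := by
  apply Phi_injective lam j
  rw [Phi_act lam j (comp_mem_Inj hS hT), Phi_act lam j hS, Phi_act lam j hT]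
  rfl

/-- the derivative at the origin -/
theorem hasFDerivAt_act [CompleteSpace X] [CompleteSpace Z] (lam : Z →L[ℝ] ℝ) (j : ℕ)
    {T : X →L[ℝ] X} (hT : T ∈ Inj X) :
    HasFDerivAt (fun p : X × Z => act lam j (T, p))
      (T.prodMap (ContinuousLinearMap.id ℝ Z)) 0 := by
  have hg : HasFDerivAt (fun p : X × Z => gact lam j (T, p)) (0 : X × Z →L[ℝ] X) 0 := by
    rw [hasFDerivAt_iff_isLittleO_nhds_zero]
    have h00 : gact lam j (T, (0 : X × Z)) = 0 := by unfold gact; simp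
    simp only [zero_add, h00, sub_zero, zero_apply]
    obtain ⟨K, hK, hBd⟩ := Inj.eventually_Bd hT
    have hBdT : Bd K T := hBd.self_of_nhds
    have hT0 : ((T, (0 : X × Z)) : QQ X Z).1 ∈ Inj X := hT
    have hΩ : IsOpen (Om X Z) := isOpen_Om
    have c1 := ((C_b lam j 0 (T, (0 : X × Z))).mul hΩ (C_Del lam j hT0 rfl 0)).neg hΩ
    have c2 := (c1.exp_sub_one hΩ (by
      simpa using (nu_pow_isBigO_one j (T, (0 : X × Z))).mul
        (inv_Lw_isBigO_one (T, (0 : X × Z))))).smul hΩ (C_Tx 0 (T, (0 : X × Z)))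
    have c3 : (gact lam j : QQ X Z → X) =O[𝓝[Om X Z] (T, (0 : X × Z))]
      (fun q => nu q ^ j * (Lw q)⁻¹ * nu q) := c2.isBigO
    have h1 : (fun q : QQ X Z => (Lw q)⁻¹) =o[𝓝[Om X Z] (T, (0 : X × Z))]
        (fun _ => (1 : ℝ)) :=
      (isLittleO_one_iff ℝ).2 (tendsto_inv_atTop_zero.comp (tendsto_Lw rfl))
    have h2 := ((nu_pow_isBigO_one j (T, (0 : X × Z))).mul_isLittleO h1).mul_isBigO
      (isBigO_refl (fun q : QQ X Z => nu q) (𝓝[Om X Z] (T, (0 : X × Z))))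
    have h3 := c3.trans_isLittleO h2
    -- restrict to the slice
    have hcont : Tendsto (fun p : X × Z => ((T, p) : QQ X Z)) (𝓝[≠] 0)
        (𝓝[Om X Z] (T, (0 : X × Z))) := by
      rw [tendsto_nhdsWithin_iff]
      constructor
      · have : Continuous (fun p : X × Z => ((T, p) : QQ X Z)) := by fun_prop
        exact (this.tendsto 0).mono_left nhdsWithin_le_nhds
      · filter_upwards [self_mem_nhdsWithin] with p hp
        exact mem_Om.2 hp
    have h4 := h3.comp_tendsto hcont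
    have h5 : (fun p : X × Z => gact lam j (T, p)) =o[𝓝[≠] 0] (fun p => p) := by
      refine (h4.trans_isBigO ?_)
      refine IsBigO.of_bound 1 (Eventually.of_forall fun p => ?_)
      simp [nu]
    have h6 : 𝓝 (0 : X × Z) = 𝓝[≠] 0 ⊔ pure 0 := by
      rw [sup_comm]; exact (pure_sup_nhdsNE 0).symm
    rw [h6, isLittleO_sup]
    exact ⟨h5, isLittleO_pure.2 h00⟩
  have h1 : HasFDerivAt (fun p : X × Z => T p.1 + gact lam j (T, p))
      (T.comp (ContinuousLinearMap.fst ℝ X Z) + 0) 0 :=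
    ((T.comp (ContinuousLinearMap.fst ℝ X Z)).hasFDerivAt).add hg
  have h2 := h1.prodMk ((ContinuousLinearMap.snd ℝ X Z).hasFDerivAt (x := 0))
  have h3 : (fun p : X × Z => act lam j (T, p)) =
      fun p => (T p.1 + gact lam j (T, p), (ContinuousLinearMap.snd ℝ X Z) p) := by
    ext1 p; exact act_eq lam j (T, p)
  rw [h3]
  refine h2.congr_fderiv ?_
  refine ContinuousLinearMap.ext fun v => ?_
  simp
  rfl

end Pool.Agent.Lib.MP_4f3c81_gt
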