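import Pool.Agent.Lib.MP_4f3c81_gt.Facts

/-!
# Bootstrapping: all derivatives of `Del` are controlled
-/

open Filter Topology Asymptotics Set
open scoped ContDiff

namespace Pool.Agent.Lib.MP_4f3c81_gt

variable {X Z : Type} [NormedAddCommGroup X] [InnerProductSpace ℝ X]
  [NormedAddCommGroup Z] [InnerProductSpace ℝ Z]

/-- the exponential factor -/
noncomputable def fE (lam : Z →L[ℝ] ℝ) (j : ℕ) (q : QQ X Z) : ℝ :=
  Real.exp (-2 * fb lam j q * Del lam j q)

/-- the factor in front of the derivative -/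
noncomputable def kap (lam : Z →L[ℝ] ℝ) (j : ℕ) (q : QQ X Z) : ℝ :=
  1 + 2 * fb lam j q * (de (fS lam j q) * (fE lam j q * fM q))

theorem kap_ge (lam : Z →L[ℝ] ℝ) (j : ℕ) {q : QQ X Z} (hT : q.1 ∈ Inj X) (hq : q.2 ≠ 0) :
    1 / 2 ≤ kap lam j q :=
  deriv_eq_pos (abs_bet_le lam j q.2.2) (fM_nonneg q) (fW_nonneg q) (fM_add_fW_pos hT hq)
    (Del lam j q)

theorem differentiable_fM : Differentiable ℝ (fM : QQ X Z → ℝ) :=
  contDiff_fM.differentiable (by simp)

theorem differentiable_fW : Differentiable ℝ (fW : QQ X Z → ℝ) :=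
  contDiff_fW.differentiable (by simp)

theorem differentiable_fR : Differentiable ℝ (fR : QQ X Z → ℝ) :=
  contDiff_fR.differentiable (by simp)

theorem differentiable_fb (lam : Z →L[ℝ] ℝ) (j : ℕ) :
    Differentiable ℝ (fb lam j : QQ X Z → ℝ) :=
  (contDiff_fb lam j).differentiable (by simp)

theorem fderiv_Del (lam : Z →L[ℝ] ℝ) (j : ℕ) {q : QQ X Z} (hT : q.1 ∈ Inj X) (hq : q.2 ≠ 0)
    (hd : DifferentiableAt ℝ (Del lam j) q) :
    (kap lam j q)⁻¹ •
      (de (fS lam j q) • (fE lam j q • fderiv ℝ fM q + fderiv ℝ fW q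
        - (2 * (fE lam j q * fM q) * Del lam j q) • fderiv ℝ (fb lam j) q)
        - de (fR q) • fderiv ℝ fR q) = fderiv ℝ (Del lam j) q := by
  set D := fderiv ℝ (Del lam j) q with hD
  have hb := (differentiable_fb lam j q).hasFDerivAt
  have hs : HasFDerivAt (fun q : QQ X Z => -2 * fb lam j q * Del lam j q)
      ((-2 * fb lam j q) • D + Del lam j q • ((-2 : ℝ) • fderiv ℝ (fb lam j) q)) q :=
    (hb.const_mul (-2)).mul hd.hasFDerivAt
  have hE : HasFDerivAt (fE lam j)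
      (fE lam j q • ((-2 * fb lam j q) • D + Del lam j q • ((-2 : ℝ) • fderiv ℝ (fb lam j) q))) q :=
    hs.exp
  have hEM := hE.mul (differentiable_fM q).hasFDerivAt
  have hS := hEM.add (differentiable_fW q).hasFDerivAt
  have hS' : HasFDerivAt (fS lam j) _ q := hS
  have h1 := (hasDerivAt_eta (fS_pos lam j hT hq)).comp_hasFDerivAt q hS'
  have h2 := (hasDerivAt_eta (fR_pos hq)).comp_hasFDerivAt q (differentiable_fR q).hasFDerivAt
  have h3 := h1.sub h2
  have hev : Del lam j =ᶠ[𝓝 q] (fun q => eta (fS lam j q) - eta (fR q)) := by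
    have h1 : IsOpen {q' : QQ X Z | q'.1 ∈ Inj X} := isOpen_Inj.preimage continuous_fst
    have h2 : IsOpen {q' : QQ X Z | q'.2 ≠ 0} := isOpen_ne.preimage continuous_snd
    filter_upwards [(h1.inter h2).mem_nhds ⟨hT, hq⟩] with q' hq'
    exact Del_spec lam j hq'.1 hq'.2
  have h4 := h3.congr_of_eventuallyEq hev
  have h5 := hd.hasFDerivAt.unique h4
  have hk : kap lam j q ≠ 0 := by
    have := kap_ge lam j hT hq
    linarith
  rw [inv_smul_eq_iff₀ hk]
  refine ContinuousLinearMap.ext fun v => ?_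
  have h6 := congrArg (fun L => L v) h5
  simp only [add_apply, sub_apply, smul_apply, smul_eq_mul] at h6 ⊢
  unfold kap
  unfold de
  linear_combination (-1 : ℝ) * h6

variable {q₀ : QQ X Z}

theorem ev_good (hT : q₀.1 ∈ Inj X) : ∃ K, 0 ≤ K ∧
    ∀ᶠ q in 𝓝[Om X Z] q₀, Bd K q.1 ∧ q.1 ∈ Inj X ∧ q.2 ≠ 0 := by
  obtain ⟨K, hK, h⟩ := Inj.eventually_Bd hT
  refine ⟨K, hK, ?_⟩
  have h1 : ∀ᶠ q in 𝓝 q₀, Bd K q.1 := (continuous_fst.tendsto q₀).eventually h
  filter_upwards [ev_Om q₀, h1.filter_mono nhdsWithin_le_nhds] with q hq h2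
  exact ⟨h2, h2.mem_Inj, mem_Om.1 hq⟩

theorem ev_bounds (lam : Z →L[ℝ] ℝ) (j : ℕ) (hT : q₀.1 ∈ Inj X) (h₀ : q₀.2 = 0) :
    ∃ K, 0 ≤ K ∧ ∀ᶠ q in 𝓝[Om X Z] q₀, q.1 ∈ Inj X ∧ q.2 ≠ 0 ∧
      |Real.log (fS lam j q) - Real.log (fR q)| ≤ K ∧ |Del lam j q| ≤ K * (Lw q)⁻¹ ∧
      2 * K ≤ Lw q := by
  obtain ⟨K, hK, h⟩ := ev_good hT
  have hL := (tendsto_Lw h₀).eventually_ge_atTop (2 * (4 * K))
  refine ⟨4 * K, by positivity, ?_⟩
  filter_upwards [h, hL] with q h1 h2
  have h3 := apriori lam j hK h1.1 h1.2.2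
  have h4 := apriori' lam j hK h1.1 h1.2.2 (by unfold Lw at h2; linarith)
  refine ⟨h1.2.1, h1.2.2, by linarith [h3.2], ?_, h2⟩
  refine h4.trans (le_of_eq ?_)
  rw [div_eq_mul_inv]
  unfold Lw
  ring

theorem fS_lower (lam : Z →L[ℝ] ℝ) (j : ℕ) (hT : q₀.1 ∈ Inj X) (h₀ : q₀.2 = 0) :
    ∃ c, 0 < c ∧ ∀ᶠ q in 𝓝[Om X Z] q₀, c * (nu q * nu q) ≤ fS lam j q := by
  obtain ⟨K, hK, h⟩ := ev_bounds lam j hT h₀
  refine ⟨Real.exp (-K), Real.exp_pos _, ?_⟩
  filter_upwards [h] with q hq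
  have hS := fS_pos lam j hq.1 hq.2.1
  have hR := fR_pos hq.2.1
  have h1 := (abs_le.1 hq.2.2.1).1
  have h2 : Real.exp (-K) * fR q ≤ fS lam j q := by
    rw [← Real.exp_log hR, ← Real.exp_log hS, ← Real.exp_add]
    apply Real.exp_le_exp.2
    linarith
  refine le_trans ?_ h2
  gcongr
  have := fR_lower q
  unfold nu
  nlinarith

theorem Lg_fS_O (lam : Z →L[ℝ] ℝ) (j : ℕ) (hT : q₀.1 ∈ Inj X) (h₀ : q₀.2 = 0) :
    (fun q => Lg (fS lam j q)) =O[𝓝[Om X Z] q₀] Lw := by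
  obtain ⟨K, hK, h⟩ := ev_bounds lam j hT h₀
  refine IsBigO.of_bound 2 ?_
  filter_upwards [h] with q hq
  have hS := fS_pos lam j hq.1 hq.2.1
  have hR := fR_pos hq.2.1
  have h1 := (abs_Lg_sub_le hS hR).trans hq.2.2.1
  have h2 : 1 ≤ Lw q := one_le_Lg hR
  rw [Real.norm_of_nonneg (Lg_pos hS).le, Real.norm_of_nonneg (by linarith)]
  have h3 := (abs_le.1 h1).2
  have h4 := hq.2.2.2.2
  unfold Lw at h4 ⊢
  linarith

theorem inv_Lg_fS_O (lam : Z →L[ℝ] ℝ) (j : ℕ) (hT : q₀.1 ∈ Inj X) (h₀ : q₀.2 = 0) :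
    (fun q => (Lg (fS lam j q))⁻¹) =O[𝓝[Om X Z] q₀] (fun q => (Lw q)⁻¹) := by
  obtain ⟨K, hK, h⟩ := ev_bounds lam j hT h₀
  refine IsBigO.of_bound 2 ?_
  filter_upwards [h] with q hq
  have hS := fS_pos lam j hq.1 hq.2.1
  have hR := fR_pos hq.2.1
  have h1 := (abs_Lg_sub_le hS hR).trans hq.2.2.1
  have h2 : 1 ≤ Lw q := one_le_Lg hR
  have hSp := Lg_pos hS
  rw [Real.norm_of_nonneg (inv_pos.2 hSp).le,
    Real.norm_of_nonneg (inv_pos.2 (by linarith : 0 < Lw q)).le]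
  have h3 := (abs_le.1 h1).1
  have h4 := hq.2.2.2.2
  have h5 : Lw q ≤ 2 * Lg (fS lam j q) := by
    unfold Lw at h4 ⊢
    linarith
  have h6 : 0 < Lw q := by linarith
  rw [← div_eq_mul_inv, le_div_iff₀ h6, inv_mul_le_iff₀ hSp]
  linarith

theorem Lg_fR_O : (fun q => Lg (fR q)) =O[𝓝[Om X Z] q₀] Lw := isBigO_refl _ _

theorem C_de_fR (N : ℕ) :
    Cls (𝓝[Om X Z] q₀) nu N (fun q => de (fR q)) (fun q => (nu q * nu q)⁻¹ * (Lw q)⁻¹) := by
  refine C_de one_pos (C_R N q₀) ?_ (isBigO_refl _ _) (isBigO_refl _ _)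
  refine Eventually.of_forall fun q => ?_
  have := fR_lower q
  unfold nu
  nlinarith

/-- the main estimate -/
theorem C_Del [CompleteSpace X] [CompleteSpace Z] (lam : Z →L[ℝ] ℝ) (j : ℕ) (hT : q₀.1 ∈ Inj X)
    (h₀ : q₀.2 = 0) (N : ℕ) :
    Cls (𝓝[Om X Z] q₀) nu N (Del lam j) (fun q => (Lw q)⁻¹) := by
  have hO : (Del lam j) =O[𝓝[Om X Z] q₀] (fun q => (Lw q)⁻¹) := by
    obtain ⟨K, hK, h⟩ := ev_bounds lam j hT h₀
    refine IsBigO.of_bound K ?_
    filter_upwards [h, ev_Om q₀] with q hq hq2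
    have h2 : 1 ≤ Lw q := one_le_Lw hq2
    rw [Real.norm_of_nonneg (inv_pos.2 (by linarith : 0 < Lw q)).le]
    exact hq.2.2.2.1
  induction N with
  | zero => exact hO
  | succ N ih =>
    have hev : ∀ᶠ q in 𝓝[Om X Z] q₀, q.1 ∈ Inj X ∧ q.2 ≠ 0 := by
      obtain ⟨K, hK, h⟩ := ev_bounds lam j hT h₀
      filter_upwards [h] with q hq
      exact ⟨hq.1, hq.2.1⟩
    refine ⟨hO, ?_, ?_⟩
    · filter_upwards [hev] with q hq
      exact (contDiffAt_Del lam j hq.1 hq.2).differentiableAt (by simp)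
    · have hΩ : IsOpen (Om X Z) := isOpen_Om
      have hL1 : ∀ᶠ q in 𝓝[Om X Z] q₀, 0 < Lw q ∧ 0 < nu q := by
        filter_upwards [ev_Om q₀] with q hq
        exact ⟨lt_of_lt_of_le one_pos (one_le_Lw hq), nu_pos hq⟩
      have c2 : Cls (𝓝[Om X Z] q₀) nu N (fun _ : QQ X Z => (2 : ℝ)) (fun _ => (1 : ℝ)) :=
        Cls.const _ (isBigO_refl _ _)
      have cm2 : Cls (𝓝[Om X Z] q₀) nu N (fun _ : QQ X Z => (-2 : ℝ)) (fun _ => (1 : ℝ)) :=
        Cls.const _ (isBigO_refl _ _)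
      have c1 : Cls (𝓝[Om X Z] q₀) nu N (fun _ : QQ X Z => (1 : ℝ)) (fun _ => (1 : ℝ)) :=
        Cls.const _ (isBigO_refl _ _)
      -- the exponential factor
      have cs : Cls (𝓝[Om X Z] q₀) nu N (fun q : QQ X Z => -2 * fb lam j q * Del lam j q)
          (fun _ => (1 : ℝ)) := by
        refine ((cm2.mul hΩ (C_b lam j N q₀)).mul hΩ ih).mono_w ?_
        simpa using (nu_pow_isBigO_one j q₀).mul (inv_Lw_isBigO_one q₀)
      have cE : Cls (𝓝[Om X Z] q₀) nu N (fE lam j) (fun _ => (1 : ℝ)) := cs.exp hΩ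
      have cEM : Cls (𝓝[Om X Z] q₀) nu N (fun q => fE lam j q * fM q)
          (fun q => nu q * nu q) := by
        refine (cE.mul hΩ (C_M N q₀)).mono_eq (Eventually.of_forall fun q => by simp)
      have cS : Cls (𝓝[Om X Z] q₀) nu N (fS lam j) (fun q => nu q * nu q) :=
        cEM.add hΩ (C_W N q₀)
      obtain ⟨c, hc, hlow⟩ := fS_lower lam j hT h₀
      have cde : Cls (𝓝[Om X Z] q₀) nu N (fun q => de (fS lam j q))
          (fun q => (nu q * nu q)⁻¹ * (Lw q)⁻¹) :=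
        C_de hc cS hlow (Lg_fS_O lam j hT h₀) (inv_Lg_fS_O lam j hT h₀)
      -- the factor `kap`
      have ckap : Cls (𝓝[Om X Z] q₀) nu N (kap lam j) (fun _ => (1 : ℝ)) := by
        refine c1.add hΩ ?_
        refine ((c2.mul hΩ (C_b lam j N q₀)).mul hΩ (cde.mul hΩ cEM)).mono_w ?_
        have h1 := (nu_pow_isBigO_one j q₀).mul (inv_Lw_isBigO_one q₀)
        simp only [mul_one] at h1
        refine IsBigO.trans (EventuallyEq.isBigO ?_) h1
        filter_upwards [hL1] with q hq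
        obtain ⟨h1, h2⟩ := hq
        field_simp
      have ckap' : Cls (𝓝[Om X Z] q₀) nu N (fun q => (kap lam j q)⁻¹) (fun _ => (1 : ℝ)) := by
        have h2 := ckap.inv hΩ (hne := ?_) (hwne := ?_) (hinv := ?_)
        · exact h2.mono_eq (Eventually.of_forall fun q => by simp)
        · filter_upwards [hev] with q hq
          have := kap_ge lam j hq.1 hq.2
          linarith
        · exact Eventually.of_forall fun q => one_ne_zero
        · refine IsBigO.of_bound 2 ?_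
          filter_upwards [hev] with q hq
          have h3 := kap_ge lam j hq.1 hq.2
          rw [Real.norm_of_nonneg (by
            have : 0 < kap lam j q := by linarith
            positivity)]
          simp only [inv_one, norm_one, mul_one]
          have : (kap lam j q)⁻¹ ≤ (1 / 2)⁻¹ := inv_anti₀ (by norm_num) h3
          linarith
      -- the derivative terms
      have dM : Cls (𝓝[Om X Z] q₀) nu N (fun q => fderiv ℝ fM q)
          (fun q : QQ X Z => nu q) := by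
        refine (C_M (N + 1) q₀).deriv.mono_eq ?_
        filter_upwards [hL1] with q hq
        obtain ⟨h1, h2⟩ := hq
        field_simp
      have dW : Cls (𝓝[Om X Z] q₀) nu N (fun q => fderiv ℝ fW q)
          (fun q : QQ X Z => nu q) := by
        refine (C_W (N + 1) q₀).deriv.mono_eq ?_
        filter_upwards [hL1] with q hq
        obtain ⟨h1, h2⟩ := hq
        field_simp
      have dR : Cls (𝓝[Om X Z] q₀) nu N (fun q => fderiv ℝ fR q)
          (fun q : QQ X Z => nu q) := by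
        refine (C_R (N + 1) q₀).deriv.mono_eq ?_
        filter_upwards [hL1] with q hq
        obtain ⟨h1, h2⟩ := hq
        field_simp
      have db := (C_b lam j (N + 1) q₀).deriv
      have t1 : Cls (𝓝[Om X Z] q₀) nu N (fun q => fE lam j q • fderiv ℝ fM q)
          (fun q : QQ X Z => nu q) :=
        (cE.smul hΩ dM).mono_eq (Eventually.of_forall fun q => by simp)
      have t2 : Cls (𝓝[Om X Z] q₀) nu N
          (fun q => (2 * (fE lam j q * fM q) * Del lam j q) • fderiv ℝ (fb lam j) q)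
          (fun q : QQ X Z => nu q) := by
        refine ((((c2.mul hΩ cEM).mul hΩ ih).smul hΩ db)).mono_w ?_
        have h1 := ((nu_pow_isBigO_one j q₀).mul (inv_Lw_isBigO_one q₀)).mul
          (isBigO_refl (fun q : QQ X Z => nu q) (𝓝[Om X Z] q₀))
        simp only [mul_one, one_mul] at h1
        refine IsBigO.trans (EventuallyEq.isBigO ?_) h1
        filter_upwards [hL1] with q hq
        obtain ⟨h1, h2⟩ := hq
        field_simp
      have t3 := (cde.smul hΩ ((t1.add hΩ dW).sub hΩ t2)).sub hΩ ((C_de_fR N).smul hΩ dR)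
      have t4 := ckap'.smul hΩ t3
      have t5 := t4.congr hΩ (g := fun q => fderiv ℝ (Del lam j) q) (by
        filter_upwards [hev] with q hq
        exact fderiv_Del lam j hq.1 hq.2
          ((contDiffAt_Del lam j hq.1 hq.2).differentiableAt (by simp)))
      refine t5.mono_eq ?_
      filter_upwards [hL1] with q hq
      obtain ⟨h1, h2⟩ := hq
      field_simp

end Pool.Agent.Lib.MP_4f3c81_gt
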