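import Mathlib

/-!
# The slowly varying function `eta r = log (1 + log (1 + 1 / r))`
-/

open Filter Topology Asymptotics Set

namespace Pool.Agent.Lib.MP_4f3c81_gt

/-- `Lg r = 1 + log (1 + r⁻¹)`. -/
noncomputable def Lg (r : ℝ) : ℝ := 1 + Real.log (1 + r⁻¹)

/-- `eta r = log (1 + log (1 + r⁻¹))`. -/
noncomputable def eta (r : ℝ) : ℝ := Real.log (Lg r)

theorem one_le_Lg {r : ℝ} (hr : 0 < r) : 1 ≤ Lg r := by
  unfold Lg
  have : 0 ≤ Real.log (1 + r⁻¹) := Real.log_nonneg (by have := inv_pos.2 hr; linarith)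
  linarith

theorem Lg_pos {r : ℝ} (hr : 0 < r) : 0 < Lg r := lt_of_lt_of_le one_pos (one_le_Lg hr)

theorem eta_nonneg {r : ℝ} (hr : 0 < r) : 0 ≤ eta r := Real.log_nonneg (one_le_Lg hr)

theorem Lg_sub_le {r r' : ℝ} (hr : 0 < r) (hrr' : r ≤ r') :
    0 ≤ Lg r - Lg r' ∧ Lg r - Lg r' ≤ Real.log r' - Real.log r := by
  have hr' : 0 < r' := lt_of_lt_of_le hr hrr'
  unfold Lg
  have h1 : 1 + r⁻¹ = (r + 1) / r := by field_simp
  have h2 : 1 + r'⁻¹ = (r' + 1) / r' := by field_simp
  rw [h1, h2, Real.log_div (by positivity) (by positivity),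
    Real.log_div (by positivity) (by positivity)]
  constructor
  · have : Real.log (r' + 1) + Real.log r ≤ Real.log (r + 1) + Real.log r' := by
      rw [← Real.log_mul (by positivity) (by positivity),
        ← Real.log_mul (by positivity) (by positivity)]
      apply Real.log_le_log (by positivity)
      nlinarith
    linarith
  · have : Real.log (r + 1) ≤ Real.log (r' + 1) := Real.log_le_log (by positivity) (by linarith)
    linarith

theorem abs_Lg_sub_le {r r' : ℝ} (hr : 0 < r) (hr' : 0 < r') :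
    |Lg r - Lg r'| ≤ |Real.log r - Real.log r'| := by
  rcases le_total r r' with h | h
  · obtain ⟨h1, h2⟩ := Lg_sub_le hr h
    rw [abs_of_nonneg h1, abs_sub_comm]
    exact h2.trans (le_abs_self _)
  · obtain ⟨h1, h2⟩ := Lg_sub_le hr' h
    rw [abs_sub_comm, abs_of_nonneg h1]
    exact h2.trans (le_abs_self _)

/-- the log of two numbers at least `m > 0` differ by at most the difference divided by `m`. -/
theorem abs_log_sub_log_le {a b m : ℝ} (hm : 0 < m) (ha : m ≤ a) (hb : m ≤ b) :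
    |Real.log a - Real.log b| ≤ |a - b| / m := by
  wlog hab : b ≤ a generalizing a b
  · rw [abs_sub_comm, abs_sub_comm a b]
    exact this hb ha (le_of_not_ge hab)
  have hb0 : 0 < b := lt_of_lt_of_le hm hb
  have ha0 : 0 < a := lt_of_lt_of_le hm ha
  have h1 : 0 ≤ Real.log a - Real.log b := sub_nonneg.2 (Real.log_le_log hb0 hab)
  rw [abs_of_nonneg h1, abs_of_nonneg (sub_nonneg.2 hab), ← Real.log_div ha0.ne' hb0.ne']
  have h2 := Real.log_le_sub_one_of_pos (div_pos ha0 hb0)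
  calc Real.log (a / b) ≤ a / b - 1 := h2
    _ = (a - b) / b := by field_simp
    _ ≤ (a - b) / m := by
        apply div_le_div_of_nonneg_left (sub_nonneg.2 hab) hm hb

theorem abs_eta_sub_le {r r' : ℝ} (hr : 0 < r) (hr' : 0 < r') :
    |eta r - eta r'| ≤ |Real.log r - Real.log r'| := by
  have h := abs_log_sub_log_le one_pos (one_le_Lg hr) (one_le_Lg hr')
  rw [div_one] at h
  exact h.trans (abs_Lg_sub_le hr hr')

theorem abs_eta_sub_le' {r r' K : ℝ} (hr : 0 < r) (hr' : 0 < r')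
    (h : |Real.log r - Real.log r'| ≤ K) (hL : 2 * K ≤ Lg r') :
    |eta r - eta r'| ≤ 2 * K / Lg r' := by
  have h1 := (abs_Lg_sub_le hr hr').trans h
  have h0 := Lg_pos hr'
  have h2 : Lg r' / 2 ≤ Lg r := by
    have := (abs_le.1 h1).1
    linarith
  have h3 : Lg r' / 2 ≤ Lg r' := by linarith
  have h4 := abs_log_sub_log_le (by linarith : 0 < Lg r' / 2) h2 h3
  refine h4.trans ?_
  calc |Lg r - Lg r'| / (Lg r' / 2) ≤ K / (Lg r' / 2) := by gcongr
    _ = 2 * K / Lg r' := by field_simp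

theorem tendsto_Lg : Tendsto Lg (𝓝[>] 0) atTop := by
  unfold Lg
  refine tendsto_atTop_add_const_left _ _ ?_
  refine Real.tendsto_log_atTop.comp ?_
  refine tendsto_atTop_add_const_left _ _ ?_
  exact tendsto_inv_nhdsGT_zero

theorem tendsto_eta : Tendsto eta (𝓝[>] 0) atTop :=
  Real.tendsto_log_atTop.comp tendsto_Lg

theorem hasDerivAt_Lg {r : ℝ} (hr : 0 < r) : HasDerivAt Lg (-(r⁻¹ * (1 + r)⁻¹)) r := by
  unfold Lg
  have h1 : HasDerivAt (fun r : ℝ => 1 + r⁻¹) (-(r ^ 2)⁻¹) r := by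
    simpa using (hasDerivAt_inv hr.ne').const_add 1
  have h2 := (h1.log (by positivity)).const_add 1
  refine h2.congr_deriv ?_
  have : 1 + r⁻¹ = (1 + r) / r := by field_simp; ring
  rw [this]
  field_simp

theorem contDiffAt_Lg {r : ℝ} (hr : 0 < r) {n : WithTop ℕ∞} : ContDiffAt ℝ n Lg r := by
  unfold Lg
  refine contDiffAt_const.add ?_
  refine ContDiffAt.log ?_ (by positivity)
  refine contDiffAt_const.add ?_
  exact contDiffAt_inv ℝ hr.ne'

theorem hasDerivAt_eta {r : ℝ} (hr : 0 < r) :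
    HasDerivAt eta (-(r⁻¹ * (1 + r)⁻¹ * (Lg r)⁻¹)) r := by
  unfold eta
  have h := (hasDerivAt_Lg hr).log (Lg_pos hr).ne'
  refine h.congr_deriv ?_
  rw [div_eq_mul_inv]; ring

theorem contDiffAt_eta {r : ℝ} (hr : 0 < r) {n : WithTop ℕ∞} : ContDiffAt ℝ n eta r := by
  unfold eta
  exact (contDiffAt_Lg hr).log (Lg_pos hr).ne'

theorem abs_log_sub_le_of_le_exp_mul {A B c : ℝ} (hA : 0 < A) (hB : 0 < B)
    (h1 : A ≤ Real.exp c * B) (h2 : B ≤ Real.exp c * A) : |Real.log A - Real.log B| ≤ c := by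
  have h1' := Real.log_le_log hA h1
  have h2' := Real.log_le_log hB h2
  rw [Real.log_mul (Real.exp_pos c).ne' hB.ne', Real.log_exp] at h1'
  rw [Real.log_mul (Real.exp_pos c).ne' hA.ne', Real.log_exp] at h2'
  rw [abs_le]
  constructor <;> linarith

/-- positivity of the argument -/
theorem expMW_pos {s M W : ℝ} (hM : 0 ≤ M) (hW : 0 ≤ W) (hMW : 0 < M + W) :
    0 < Real.exp s * M + W := by
  rcases hM.eq_or_lt with h | h
  · rw [← h] at hMW ⊢; linarith
  · have := mul_pos (Real.exp_pos s) h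
    linarith

theorem abs_log_exp_sub_le {M W s s' : ℝ} (hM : 0 ≤ M) (hW : 0 ≤ W) (hMW : 0 < M + W) :
    |Real.log (Real.exp s * M + W) - Real.log (Real.exp s' * M + W)| ≤ |s - s'| := by
  have key : ∀ s s' : ℝ, Real.exp s * M + W ≤ Real.exp |s - s'| * (Real.exp s' * M + W) := by
    intro s s'
    have h1 : Real.exp s ≤ Real.exp |s - s'| * Real.exp s' := by
      rw [← Real.exp_add]
      apply Real.exp_le_exp.2
      have := le_abs_self (s - s')
      linarith
    have h2 : W ≤ Real.exp |s - s'| * W := by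
      have := Real.one_le_exp (abs_nonneg (s - s'))
      nlinarith
    nlinarith
  refine abs_log_sub_le_of_le_exp_mul (expMW_pos hM hW hMW) (expMW_pos hM hW hMW) (key s s') ?_
  rw [abs_sub_comm]
  exact key s' s

theorem contraction {b M W : ℝ} (hb : |b| ≤ 1 / 4) (hM : 0 ≤ M) (hW : 0 ≤ W) (hMW : 0 < M + W)
    (s s' : ℝ) :
    |eta (Real.exp (-2 * b * s) * M + W) - eta (Real.exp (-2 * b * s') * M + W)|
      ≤ 1 / 2 * |s - s'| := by
  refine (abs_eta_sub_le (expMW_pos hM hW hMW) (expMW_pos hM hW hMW)).trans ?_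
  refine (abs_log_exp_sub_le hM hW hMW).trans ?_
  rw [← mul_sub, abs_mul, abs_mul, abs_neg, abs_two]
  have := abs_nonneg (s - s')
  nlinarith

theorem existsUnique_sol {b M W : ℝ} (hb : |b| ≤ 1 / 4) (hM : 0 ≤ M) (hW : 0 ≤ W)
    (hMW : 0 < M + W) (c : ℝ) :
    ∃! s : ℝ, s = eta (Real.exp (-2 * b * s) * M + W) - c := by
  set g : ℝ → ℝ := fun s => eta (Real.exp (-2 * b * s) * M + W) - c with hg
  have hK : ContractingWith (1 / 2 : NNReal) g := by
    refine ⟨?_, ?_⟩
    · rw [← NNReal.coe_lt_coe]; norm_num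
    · refine LipschitzWith.of_dist_le_mul fun s s' => ?_
      rw [Real.dist_eq, Real.dist_eq, hg]
      simp only [sub_sub_sub_cancel_right]
      have := contraction hb hM hW hMW s s'
      simpa using this
  refine ⟨hK.fixedPoint g, ?_, ?_⟩
  · exact (hK.fixedPoint_isFixedPt (f := g)).symm
  · intro s hs
    exact hK.fixedPoint_unique (f := g) (x := s) hs.symm

/-- The solution of `s = eta (exp (-2 b s) M + W) - eta R`. -/
noncomputable def sol (b M W R : ℝ) : ℝ :=
  Classical.epsilon fun s : ℝ => s = eta (Real.exp (-2 * b * s) * M + W) - eta R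

theorem sol_spec {b M W : ℝ} (hb : |b| ≤ 1 / 4) (hM : 0 ≤ M) (hW : 0 ≤ W)
    (hMW : 0 < M + W) (R : ℝ) :
    sol b M W R = eta (Real.exp (-2 * b * sol b M W R) * M + W) - eta R :=
  Classical.epsilon_spec (p := fun s : ℝ => s = eta (Real.exp (-2 * b * s) * M + W) - eta R)
    (existsUnique_sol hb hM hW hMW (eta R)).exists

theorem sol_unique {b M W : ℝ} (hb : |b| ≤ 1 / 4) (hM : 0 ≤ M) (hW : 0 ≤ W)
    (hMW : 0 < M + W) {R s : ℝ} (hs : s = eta (Real.exp (-2 * b * s) * M + W) - eta R) :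
    s = sol b M W R :=
  (existsUnique_sol hb hM hW hMW (eta R)).unique hs (sol_spec hb hM hW hMW R)

end Pool.Agent.Lib.MP_4f3c81_gt
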