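import Pool.Agent.Lib.MP_4f3c81_gt.Extend
import Pool.Agent.Lib.MP_4f3c81_gt.Slow

/-!
# The exponent `Del` and its basic bounds
-/

open Filter Topology Asymptotics Set

namespace Pool.Agent.Lib.MP_4f3c81_gt

variable {X Z : Type} [NormedAddCommGroup X] [InnerProductSpace ℝ X]
  [NormedAddCommGroup Z] [InnerProductSpace ℝ Z]

/-- The coefficient `1/4 * (t / (1 + t^2))^j` with `t = lam z`. -/
noncomputable def bet (lam : Z →L[ℝ] ℝ) (j : ℕ) (z : Z) : ℝ :=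
  1 / 4 * (lam z * (1 + lam z * lam z)⁻¹) ^ j

theorem abs_bet_le (lam : Z →L[ℝ] ℝ) (j : ℕ) (z : Z) : |bet lam j z| ≤ 1 / 4 := by
  unfold bet
  rw [abs_mul, abs_pow, abs_of_pos (by norm_num : (0 : ℝ) < 1 / 4)]
  have h : |lam z * (1 + lam z * lam z)⁻¹| ≤ 1 := by
    have hp : 0 < 1 + lam z * lam z := by nlinarith [mul_self_nonneg (lam z)]
    rw [abs_mul, abs_inv, abs_of_pos hp, ← div_eq_mul_inv, div_le_one hp]
    rcases abs_cases (lam z) with ⟨h1, h2⟩ | ⟨h1, h2⟩ <;> rw [h1] <;>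
      nlinarith [sq_nonneg (lam z - 1), sq_nonneg (lam z + 1)]
  have := pow_le_one₀ (n := j) (abs_nonneg _) h
  linarith

/-- The parameter space: a linear map together with a point. -/
abbrev QQ (X Z : Type) [NormedAddCommGroup X] [InnerProductSpace ℝ X]
    [NormedAddCommGroup Z] [InnerProductSpace ℝ Z] : Type := (X →L[ℝ] X) × (X × Z)

/-- `|T x|^2`. -/
noncomputable def fM (q : QQ X Z) : ℝ := ‖q.1 q.2.1‖ ^ 2
/-- `|z|^2`. -/
noncomputable def fW (q : QQ X Z) : ℝ := ‖q.2.2‖ ^ 2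
/-- `|x|^2 + |z|^2`. -/
noncomputable def fR (q : QQ X Z) : ℝ := ‖q.2.1‖ ^ 2 + ‖q.2.2‖ ^ 2
/-- the coefficient as a function on the parameter space. -/
noncomputable def fb (lam : Z →L[ℝ] ℝ) (j : ℕ) (q : QQ X Z) : ℝ := bet lam j q.2.2
/-- The exponent. -/
noncomputable def Del (lam : Z →L[ℝ] ℝ) (j : ℕ) (q : QQ X Z) : ℝ :=
  sol (fb lam j q) (fM q) (fW q) (fR q)
/-- The squared size of the image point. -/
noncomputable def fS (lam : Z →L[ℝ] ℝ) (j : ℕ) (q : QQ X Z) : ℝ :=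
  Real.exp (-2 * fb lam j q * Del lam j q) * fM q + fW q

/-- Linear maps bounded below. -/
def Inj (X : Type) [NormedAddCommGroup X] [InnerProductSpace ℝ X] : Set (X →L[ℝ] X) :=
  {T | ∃ c > 0, ∀ x, c * ‖x‖ ≤ ‖T x‖}

/-- Two sided bound for a linear map. -/
def Bd (K : ℝ) (T : X →L[ℝ] X) : Prop :=
  ∀ x, Real.exp (-K) * ‖x‖ ^ 2 ≤ ‖T x‖ ^ 2 ∧ ‖T x‖ ^ 2 ≤ Real.exp K * ‖x‖ ^ 2

theorem Inj.eventually_Bd {T : X →L[ℝ] X} (hT : T ∈ Inj X) :
    ∃ K, 0 ≤ K ∧ ∀ᶠ T' in 𝓝 T, Bd K T' := by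
  obtain ⟨c, hc, h⟩ := hT
  have hball : Metric.ball T (c / 2) ∈ 𝓝 T := Metric.ball_mem_nhds _ (by positivity)
  set a : ℝ := (c / 2) ^ 2 with ha
  set b : ℝ := (‖T‖ + c / 2) ^ 2 with hb
  have ha0 : 0 < a := by positivity
  have hb0 : 0 < b := by positivity
  refine ⟨|Real.log a| + |Real.log b|, by positivity, ?_⟩
  filter_upwards [hball] with T' hT' x
  have hd : ‖(T' - T) x‖ ≤ c / 2 * ‖x‖ := by
    refine ((T' - T).le_opNorm x).trans ?_
    gcongr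
    rw [← dist_eq_norm]
    exact (Metric.mem_ball.1 hT').le
  have h1 : c / 2 * ‖x‖ ≤ ‖T' x‖ := by
    have h2 := h x
    have h3 : ‖T x‖ ≤ ‖T' x‖ + ‖(T' - T) x‖ := by
      have : T x = T' x - (T' - T) x := by simp
      rw [this]; exact norm_sub_le _ _
    linarith
  have h4 : ‖T' x‖ ≤ (‖T‖ + c / 2) * ‖x‖ := by
    have : T' x = T x + (T' - T) x := by simp
    rw [this]
    refine (norm_add_le _ _).trans ?_
    have := T.le_opNorm x
    linarith
  constructor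
  · calc Real.exp (-(|Real.log a| + |Real.log b|)) * ‖x‖ ^ 2 ≤ a * ‖x‖ ^ 2 := by
          gcongr
          rw [← Real.le_log_iff_exp_le ha0]
          have := neg_abs_le (Real.log a)
          have := abs_nonneg (Real.log b)
          linarith
      _ = (c / 2 * ‖x‖) ^ 2 := by rw [ha]; ring
      _ ≤ ‖T' x‖ ^ 2 := by gcongr
  · calc ‖T' x‖ ^ 2 ≤ ((‖T‖ + c / 2) * ‖x‖) ^ 2 := by gcongr
      _ = b * ‖x‖ ^ 2 := by rw [hb]; ring
      _ ≤ _ := by
          gcongr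
          rw [← Real.log_le_iff_le_exp hb0]
          have := le_abs_self (Real.log b)
          have := abs_nonneg (Real.log a)
          linarith

theorem Bd.mem_Inj {K : ℝ} {T : X →L[ℝ] X} (h : Bd K T) : T ∈ Inj X := by
  refine ⟨Real.sqrt (Real.exp (-K)), Real.sqrt_pos.2 (Real.exp_pos _), fun x => ?_⟩
  have h1 := (h x).1
  rw [← abs_of_nonneg (norm_nonneg (T x)), ← Real.sqrt_sq_eq_abs]
  calc Real.sqrt (Real.exp (-K)) * ‖x‖ = Real.sqrt (Real.exp (-K) * ‖x‖ ^ 2) := by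
        rw [Real.sqrt_mul (Real.exp_pos _).le, Real.sqrt_sq (norm_nonneg _)]
    _ ≤ _ := Real.sqrt_le_sqrt h1

theorem isOpen_Inj : IsOpen (Inj X) := by
  rw [isOpen_iff_mem_nhds]
  intro T hT
  obtain ⟨K, -, hK⟩ := Inj.eventually_Bd hT
  filter_upwards [hK] with T' hT'
  exact hT'.mem_Inj

theorem fM_nonneg (q : QQ X Z) : 0 ≤ fM q := by unfold fM; positivity
theorem fW_nonneg (q : QQ X Z) : 0 ≤ fW q := by unfold fW; positivity

theorem fR_pos {q : QQ X Z} (hq : q.2 ≠ 0) : 0 < fR q := by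
  unfold fR
  by_cases h : q.2.1 = 0
  · have h2 : q.2.2 ≠ 0 := fun h2 => hq (Prod.ext h h2)
    have := norm_pos_iff.2 h2
    positivity
  · have := norm_pos_iff.2 h
    positivity

theorem fR_lower (q : QQ X Z) : ‖q.2‖ ^ 2 ≤ fR q := by
  unfold fR
  rw [Prod.norm_def]
  rcases max_choice ‖q.2.1‖ ‖q.2.2‖ with h | h <;> rw [h] <;>
    nlinarith [sq_nonneg ‖q.2.1‖, sq_nonneg ‖q.2.2‖]

theorem fR_upper (q : QQ X Z) : fR q ≤ 2 * ‖q.2‖ ^ 2 := by
  unfold fR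
  rw [Prod.norm_def]
  have h1 := le_max_left ‖q.2.1‖ ‖q.2.2‖
  have h2 := le_max_right ‖q.2.1‖ ‖q.2.2‖
  have h3 := norm_nonneg q.2.1
  have h4 := norm_nonneg q.2.2
  nlinarith [pow_le_pow_left₀ h3 h1 2, pow_le_pow_left₀ h4 h2 2]

theorem fM_add_fW_pos {q : QQ X Z} (hT : q.1 ∈ Inj X) (hq : q.2 ≠ 0) : 0 < fM q + fW q := by
  unfold fM fW
  obtain ⟨c, hc, h⟩ := hT
  by_cases h1 : q.2.1 = 0
  · have h2 : q.2.2 ≠ 0 := fun h2 => hq (Prod.ext h1 h2)
    have := norm_pos_iff.2 h2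
    positivity
  · have h3 := norm_pos_iff.2 h1
    have h4 : 0 < ‖q.1 q.2.1‖ := lt_of_lt_of_le (by positivity) (h q.2.1)
    positivity

theorem Del_spec (lam : Z →L[ℝ] ℝ) (j : ℕ) {q : QQ X Z} (hT : q.1 ∈ Inj X) (hq : q.2 ≠ 0) :
    Del lam j q = eta (fS lam j q) - eta (fR q) :=
  sol_spec (abs_bet_le lam j q.2.2) (fM_nonneg q) (fW_nonneg q) (fM_add_fW_pos hT hq) (fR q)

theorem fS_pos (lam : Z →L[ℝ] ℝ) (j : ℕ) {q : QQ X Z} (hT : q.1 ∈ Inj X) (hq : q.2 ≠ 0) :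
    0 < fS lam j q :=
  expMW_pos (fM_nonneg q) (fW_nonneg q) (fM_add_fW_pos hT hq)

/-- a priori bounds. -/
theorem apriori (lam : Z →L[ℝ] ℝ) (j : ℕ) {q : QQ X Z} {K : ℝ} (hK : 0 ≤ K) (hT : Bd K q.1)
    (hq : q.2 ≠ 0) :
    |Del lam j q| ≤ 2 * K ∧ |Real.log (fS lam j q) - Real.log (fR q)| ≤ 2 * K := by
  have hI := hT.mem_Inj
  have hS := fS_pos lam j hI hq
  have hR := fR_pos hq
  have hb := abs_bet_le lam j q.2.2
  set s : ℝ := -2 * fb lam j q * Del lam j q with hs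
  have hsb : |s| ≤ 1 / 2 * |Del lam j q| := by
    rw [hs, abs_mul, abs_mul, abs_neg, abs_two]
    have := abs_nonneg (Del lam j q)
    have hb' : |fb lam j q| ≤ 1 / 4 := hb
    nlinarith
  have hlog : |Real.log (fS lam j q) - Real.log (fR q)| ≤ |s| + K := by
    have hSdef : fS lam j q = Real.exp s * fM q + fW q := rfl
    have e1 : Real.exp s ≤ Real.exp |s| := Real.exp_le_exp.2 (le_abs_self s)
    have e2 : Real.exp (-s) ≤ Real.exp |s| := Real.exp_le_exp.2 (neg_le_abs s)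
    have e3 : 1 ≤ Real.exp |s| := Real.one_le_exp (abs_nonneg s)
    have e4 : 1 ≤ Real.exp K := Real.one_le_exp hK
    have hM1 := (hT q.2.1).2
    have hM2 := (hT q.2.1).1
    have hM2' : ‖q.2.1‖ ^ 2 ≤ Real.exp K * fM q := by
      have : Real.exp K * (Real.exp (-K) * ‖q.2.1‖ ^ 2) ≤ Real.exp K * ‖q.1 q.2.1‖ ^ 2 := by
        gcongr
      rw [← mul_assoc, ← Real.exp_add, add_neg_cancel, Real.exp_zero, one_mul] at this
      exact this
    have hWnn := fW_nonneg q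
    have hMnn := fM_nonneg q
    have hxnn : 0 ≤ ‖q.2.1‖ ^ 2 := by positivity
    have e5 : 1 ≤ Real.exp |s| * Real.exp K := by nlinarith
    refine abs_log_sub_le_of_le_exp_mul hS hR ?_ ?_
    · rw [hSdef, Real.exp_add]
      have h1 : Real.exp s * fM q ≤ Real.exp |s| * (Real.exp K * ‖q.2.1‖ ^ 2) := by
        unfold fM
        gcongr
      have h2 : fW q ≤ Real.exp |s| * Real.exp K * ‖q.2.2‖ ^ 2 := by
        unfold fW
        have : 0 ≤ ‖q.2.2‖ ^ 2 := by positivity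
        nlinarith
      unfold fR
      nlinarith
    · rw [hSdef, Real.exp_add]
      have h1 : ‖q.2.1‖ ^ 2 ≤ Real.exp |s| * Real.exp K * (Real.exp s * fM q) := by
        have h3 : 1 ≤ Real.exp |s| * Real.exp s := by
          rw [← Real.exp_add]
          exact Real.one_le_exp (by linarith [neg_abs_le s])
        have h4 : 0 ≤ Real.exp K * fM q := by positivity
        nlinarith
      have h2 : ‖q.2.2‖ ^ 2 ≤ Real.exp |s| * Real.exp K * fW q := by
        unfold fW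
        have : 0 ≤ ‖q.2.2‖ ^ 2 := by positivity
        nlinarith
      unfold fR
      nlinarith
  have hDel : |Del lam j q| ≤ |Real.log (fS lam j q) - Real.log (fR q)| := by
    rw [Del_spec lam j hI hq]
    exact abs_eta_sub_le hS hR
  constructor <;> linarith

theorem apriori' (lam : Z →L[ℝ] ℝ) (j : ℕ) {q : QQ X Z} {K : ℝ} (hK : 0 ≤ K) (hT : Bd K q.1)
    (hq : q.2 ≠ 0) (hL : 2 * (2 * K) ≤ Lg (fR q)) :
    |Del lam j q| ≤ 2 * (2 * K) / Lg (fR q) := by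
  have hI := hT.mem_Inj
  have hS := fS_pos lam j hI hq
  have hR := fR_pos hq
  rw [Del_spec lam j hI hq]
  exact abs_eta_sub_le' hS hR (apriori lam j hK hT hq).2 hL

end Pool.Agent.Lib.MP_4f3c81_gt
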