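import Pool.Agent.Lib.MP_4f3c81_gt.Weighted

/-!
# Extending smoothness across a singular set
-/

open Filter Topology Asymptotics Set

namespace Pool.Agent.Lib.MP_4f3c81_gt

theorem nhds_eq_sup {Q : Type} [TopologicalSpace Q] (s : Set Q) (q : Q) :
    𝓝 q = 𝓝[s] q ⊔ 𝓝[sᶜ] q := by
  rw [← nhdsWithin_union, union_compl_self, nhdsWithin_univ]

theorem contDiffOn_of_cls {Q : Type} [NormedAddCommGroup Q] [NormedSpace ℝ Q]
    {U : Set Q} (hU : IsOpen U) {ν : Q → ℝ} {C : NNReal} (hν : LipschitzWith C ν) (k : ℕ)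
    {F : Type} [NormedAddCommGroup F] [NormedSpace ℝ F] {f : Q → F} {w : Q → ℝ}
    (hf0 : ∀ q ∈ U, ν q = 0 → f q = 0)
    (hsmooth : ContDiffOn ℝ k f (U ∩ {q | ν q ≠ 0}))
    (hcls : ∀ q₀ ∈ U, ν q₀ = 0 → Cls (𝓝[{q | ν q ≠ 0}] q₀) ν k f w)
    (hw : ∀ q₀ ∈ U, ν q₀ = 0 → w =o[𝓝[{q | ν q ≠ 0}] q₀] (fun q => ν q ^ k)) :
    ContDiffOn ℝ k f U := by
  have hΩ : IsOpen {q : Q | ν q ≠ 0} := isOpen_ne.preimage hν.continuous
  have hUΩ : IsOpen (U ∩ {q : Q | ν q ≠ 0}) := hU.inter hΩ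
  induction k generalizing F w with
  | zero =>
    simp only [CharP.cast_eq_zero, contDiffOn_zero] at hsmooth ⊢
    intro q₀ hq₀
    rw [continuousWithinAt_iff_continuousAt (hU.mem_nhds hq₀)]
    by_cases h : ν q₀ = 0
    · rw [ContinuousAt, hf0 q₀ hq₀ h, nhds_eq_sup {q : Q | ν q ≠ 0} q₀, tendsto_sup]
      constructor
      · have h1 := (hcls q₀ hq₀ h).isBigO.trans_isLittleO (hw q₀ hq₀ h)
        simp only [pow_zero] at h1
        exact (isLittleO_one_iff ℝ).1 h1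
      · refine tendsto_const_nhds.congr' ?_
        have h2 : U ∈ 𝓝[{q : Q | ν q ≠ 0}ᶜ] q₀ := mem_nhdsWithin_of_mem_nhds (hU.mem_nhds hq₀)
        filter_upwards [h2, self_mem_nhdsWithin] with q hq1 hq2
        simp only [mem_compl_iff, mem_setOf_eq, not_not] at hq2
        exact (hf0 q hq1 hq2).symm
    · exact hsmooth.continuousAt (hUΩ.mem_nhds ⟨hq₀, h⟩)
  | succ k ih =>
    have hder0 : ∀ q₀ ∈ U, ν q₀ = 0 → HasFDerivAt f (0 : Q →L[ℝ] F) q₀ := by
      intro q₀ hq₀ h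
      rw [hasFDerivAt_iff_isLittleO]
      simp only [hf0 q₀ hq₀ h, sub_zero, ContinuousLinearMap.zero_apply]
      rw [nhds_eq_sup {q : Q | ν q ≠ 0} q₀, isLittleO_sup]
      constructor
      · have h1 := (hcls q₀ hq₀ h).isBigO.trans_isLittleO (hw q₀ hq₀ h)
        refine h1.trans_isBigO ?_
        have h2 : ν =O[𝓝 q₀] (fun q => q - q₀) := by
          refine IsBigO.of_bound C (Eventually.of_forall fun q => ?_)
          have := hν.dist_le_mul q q₀
          rw [dist_eq_norm, dist_eq_norm, h, sub_zero] at this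
          exact this
        have h3 : (fun q => ν q ^ (k + 1)) =O[𝓝 q₀] ν := by
          have h4 : Tendsto ν (𝓝 q₀) (𝓝 (ν q₀)) := hν.continuous.tendsto q₀
          have h5 : (fun q => ν q ^ k) =O[𝓝 q₀] (fun _ => (1 : ℝ)) :=
            (h4.pow k).isBigO_one ℝ
          have h6 := h5.mul (isBigO_refl ν (𝓝 q₀))
          simpa [pow_succ] using h6
        exact (h3.trans h2).mono nhdsWithin_le_nhds
      · refine (isLittleO_zero (fun q => q - q₀) _).congr' ?_ EventuallyEq.rfl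
        have h2 : U ∈ 𝓝[{q : Q | ν q ≠ 0}ᶜ] q₀ := mem_nhdsWithin_of_mem_nhds (hU.mem_nhds hq₀)
        filter_upwards [h2, self_mem_nhdsWithin] with q hq1 hq2
        simp only [mem_compl_iff, mem_setOf_eq, not_not] at hq2
        exact (hf0 q hq1 hq2).symm
    have hcast : ((k + 1 : ℕ) : WithTop ℕ∞) = (k : WithTop ℕ∞) + 1 := by push_cast; rfl
    rw [hcast, contDiffOn_succ_iff_fderiv_of_isOpen hUΩ] at hsmooth
    rw [hcast, contDiffOn_succ_iff_fderiv_of_isOpen hU]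
    refine ⟨?_, ?_, ?_⟩
    · intro q₀ hq₀
      by_cases h : ν q₀ = 0
      · exact (hder0 q₀ hq₀ h).differentiableAt.differentiableWithinAt
      · exact ((hsmooth.1 q₀ ⟨hq₀, h⟩).differentiableAt
          (hUΩ.mem_nhds ⟨hq₀, h⟩)).differentiableWithinAt
    · intro h
      exact absurd h (by simp)
    · refine ih (w := fun q => w q / ν q) ?_ hsmooth.2.2 ?_ ?_
      · intro q₀ hq₀ h
        exact (hder0 q₀ hq₀ h).fderiv
      · intro q₀ hq₀ h
        exact (hcls q₀ hq₀ h).2.2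
      · intro q₀ hq₀ h
        have h1 := hw q₀ hq₀ h
        have h2 := h1.mul_isBigO (isBigO_refl (fun q => (ν q)⁻¹) (𝓝[{q | ν q ≠ 0}] q₀))
        refine (h2.congr_left ?_).congr' EventuallyEq.rfl ?_
        · intro q; rw [div_eq_mul_inv]
        · filter_upwards [self_mem_nhdsWithin] with q hq
          have hq' : ν q ≠ 0 := hq
          rw [pow_succ, mul_assoc, mul_inv_cancel₀ hq', mul_one]

end Pool.Agent.Lib.MP_4f3c81_gt
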