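import Pool.Agent.Lib.MP_4f3c81_gt.Smooth

/-!
# Weighted estimates for the exponent `Del`
-/

open Filter Topology Asymptotics Set
open scoped ContDiff

namespace Pool.Agent.Lib.MP_4f3c81_gt

variable {X Z : Type} [NormedAddCommGroup X] [InnerProductSpace ℝ X]
  [NormedAddCommGroup Z] [InnerProductSpace ℝ Z]

/-- the gauge. -/
noncomputable def nu (q : QQ X Z) : ℝ := ‖q.2‖

/-- the regular set. -/
def Om (X Z : Type) [NormedAddCommGroup X] [InnerProductSpace ℝ X]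
    [NormedAddCommGroup Z] [InnerProductSpace ℝ Z] : Set (QQ X Z) := {q | nu q ≠ 0}

theorem continuous_nu : Continuous (nu : QQ X Z → ℝ) := by
  unfold nu; fun_prop

theorem isOpen_Om : IsOpen (Om X Z) := isOpen_ne.preimage continuous_nu

theorem mem_Om {q : QQ X Z} : q ∈ Om X Z ↔ q.2 ≠ 0 := by
  change ‖q.2‖ ≠ 0 ↔ _
  simp

theorem nu_pos {q : QQ X Z} (hq : q ∈ Om X Z) : 0 < nu q :=
  lt_of_le_of_ne (norm_nonneg _) (Ne.symm hq)

theorem ev_Om (q₀ : QQ X Z) : ∀ᶠ q in 𝓝[Om X Z] q₀, q ∈ Om X Z := self_mem_nhdsWithin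

theorem Cls.mono_eq {Q F : Type} [NormedAddCommGroup Q] [NormedSpace ℝ Q]
    [NormedAddCommGroup F] [NormedSpace ℝ F] {l : Filter Q} {ν : Q → ℝ} {N : ℕ}
    {f : Q → F} {w w' : Q → ℝ} (h : Cls l ν N f w) (hw : ∀ᶠ q in l, w q = w' q) :
    Cls l ν N f w' := h.mono_w (EventuallyEq.isBigO hw)

theorem nu_isBigO_one (q₀ : QQ X Z) : (nu : QQ X Z → ℝ) =O[𝓝[Om X Z] q₀] (fun _ => (1 : ℝ)) :=
  ((continuous_nu.tendsto q₀).isBigO_one ℝ).mono nhdsWithin_le_nhds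

theorem one_isBigO_inv_nu (q₀ : QQ X Z) :
    (fun _ => (1 : ℝ)) =O[𝓝[Om X Z] q₀] (fun q => (1 : ℝ) / nu q) := by
  have h := (nu_isBigO_one q₀).mul (isBigO_refl (fun q => (nu q)⁻¹) (𝓝[Om X Z] q₀))
  refine h.congr' ?_ ?_
  · filter_upwards [ev_Om q₀] with q hq
    exact mul_inv_cancel₀ (nu_pos hq).ne'
  · exact Eventually.of_forall fun q => by simp

theorem C_x (N : ℕ) (q₀ : QQ X Z) : Cls (𝓝[Om X Z] q₀) nu N (fun q => q.2.1) nu := by
  have h := Cls.clm (l := 𝓝[Om X Z] q₀) (ν := nu) (N := N) (w := nu)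
    ((ContinuousLinearMap.fst ℝ X Z).comp (ContinuousLinearMap.snd ℝ (X →L[ℝ] X) (X × Z))) ?_ ?_
  · exact h
  · refine IsBigO.of_bound 1 (Eventually.of_forall fun q => ?_)
    simp only [one_mul, ContinuousLinearMap.coe_comp, Function.comp_apply,
      ContinuousLinearMap.coe_snd', ContinuousLinearMap.coe_fst']
    unfold nu
    rw [norm_norm]
    exact norm_fst_le q.2
  · refine EventuallyEq.isBigO ?_
    filter_upwards [ev_Om q₀] with q hq
    exact (div_self (nu_pos hq).ne').symm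

theorem C_z (N : ℕ) (q₀ : QQ X Z) : Cls (𝓝[Om X Z] q₀) nu N (fun q => q.2.2) nu := by
  have h := Cls.clm (l := 𝓝[Om X Z] q₀) (ν := nu) (N := N) (w := nu)
    ((ContinuousLinearMap.snd ℝ X Z).comp (ContinuousLinearMap.snd ℝ (X →L[ℝ] X) (X × Z))) ?_ ?_
  · exact h
  · refine IsBigO.of_bound 1 (Eventually.of_forall fun q => ?_)
    simp only [one_mul, ContinuousLinearMap.coe_comp, Function.comp_apply,
      ContinuousLinearMap.coe_snd']
    unfold nu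
    rw [norm_norm]
    exact norm_snd_le q.2
  · refine EventuallyEq.isBigO ?_
    filter_upwards [ev_Om q₀] with q hq
    exact (div_self (nu_pos hq).ne').symm

theorem C_T (N : ℕ) (q₀ : QQ X Z) :
    Cls (𝓝[Om X Z] q₀) nu N (fun q => q.1) (fun _ => (1 : ℝ)) := by
  have h := Cls.clm (l := 𝓝[Om X Z] q₀) (ν := nu) (N := N) (w := fun _ => (1 : ℝ))
    (ContinuousLinearMap.fst ℝ (X →L[ℝ] X) (X × Z)) ?_ ?_
  · exact h
  · have h1 : Tendsto (fun q : QQ X Z => q.1) (𝓝 q₀) (𝓝 q₀.1) := continuous_fst.tendsto q₀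
    exact (h1.isBigO_one ℝ).mono nhdsWithin_le_nhds
  · exact one_isBigO_inv_nu q₀

theorem C_Tx (N : ℕ) (q₀ : QQ X Z) :
    Cls (𝓝[Om X Z] q₀) nu N (fun q => q.1 q.2.1) nu := by
  have h := Cls.bilin (ContinuousLinearMap.id ℝ (X →L[ℝ] X)) isOpen_Om (C_T N q₀) (C_x N q₀)
  simpa using h

theorem C_M (N : ℕ) (q₀ : QQ X Z) :
    Cls (𝓝[Om X Z] q₀) nu N (fM : QQ X Z → ℝ) (fun q => nu q * nu q) := by
  have h := Cls.bilin (innerSL ℝ) isOpen_Om (C_Tx N q₀) (C_Tx N q₀)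
  refine h.congr isOpen_Om (Eventually.of_forall fun q => ?_)
  exact real_inner_self_eq_norm_sq (q.1 q.2.1)

theorem C_W (N : ℕ) (q₀ : QQ X Z) :
    Cls (𝓝[Om X Z] q₀) nu N (fW : QQ X Z → ℝ) (fun q => nu q * nu q) := by
  have h := Cls.bilin (innerSL ℝ) isOpen_Om (C_z N q₀) (C_z N q₀)
  refine h.congr isOpen_Om (Eventually.of_forall fun q => ?_)
  exact real_inner_self_eq_norm_sq q.2.2

theorem C_R (N : ℕ) (q₀ : QQ X Z) :
    Cls (𝓝[Om X Z] q₀) nu N (fR : QQ X Z → ℝ) (fun q => nu q * nu q) := by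
  have h1 := Cls.bilin (innerSL ℝ) isOpen_Om (C_z N q₀) (C_z N q₀)
  have h2 := Cls.bilin (innerSL ℝ) isOpen_Om (C_x N q₀) (C_x N q₀)
  refine (h2.add isOpen_Om h1).congr isOpen_Om (Eventually.of_forall fun q => ?_)
  exact congrArg₂ (· + ·) (real_inner_self_eq_norm_sq q.2.1) (real_inner_self_eq_norm_sq q.2.2)

theorem C_b (lam : Z →L[ℝ] ℝ) (j N : ℕ) (q₀ : QQ X Z) :
    Cls (𝓝[Om X Z] q₀) nu N (fb lam j : QQ X Z → ℝ) (fun q => nu q ^ j) := by
  have h1 : Cls (𝓝[Om X Z] q₀) nu N (fun q : QQ X Z => lam q.2.2) nu :=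
    (C_z N q₀).comp_clm lam isOpen_Om
  have h1' : Cls (𝓝[Om X Z] q₀) nu N (fun q : QQ X Z => lam q.2.2) (fun _ => 1) :=
    h1.mono_w (nu_isBigO_one q₀)
  have h2 : Cls (𝓝[Om X Z] q₀) nu N (fun q : QQ X Z => 1 + lam q.2.2 * lam q.2.2)
      (fun _ => (1 : ℝ)) := by
    have h3 := h1'.mul isOpen_Om h1'
    have h4 : Cls (𝓝[Om X Z] q₀) nu N (fun _ : QQ X Z => (1 : ℝ)) (fun _ => (1 : ℝ)) :=
      Cls.const _ (isBigO_refl _ _)
    exact h4.add isOpen_Om (h3.mono_eq (Eventually.of_forall fun q => by simp))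
  have hpos : ∀ q : QQ X Z, 1 ≤ 1 + lam q.2.2 * lam q.2.2 := fun q => by
    nlinarith [mul_self_nonneg (lam q.2.2)]
  have h5 : Cls (𝓝[Om X Z] q₀) nu N (fun q : QQ X Z => (1 + lam q.2.2 * lam q.2.2)⁻¹)
      (fun _ => (1 : ℝ)⁻¹) := by
    refine h2.inv isOpen_Om (Eventually.of_forall fun q => ?_)
      (Eventually.of_forall fun q => one_ne_zero) ?_
    · have := hpos q
      positivity
    · refine IsBigO.of_bound 1 (Eventually.of_forall fun q => ?_)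
      have h6 := hpos q
      rw [norm_inv, Real.norm_of_nonneg (by linarith)]
      simpa using inv_le_one_of_one_le₀ h6
  have h6 := ((h1.mul isOpen_Om h5).pow isOpen_Om j)
  have h7 : Cls (𝓝[Om X Z] q₀) nu N (fun _ : QQ X Z => (1 / 4 : ℝ)) (fun _ => (1 : ℝ)) :=
    Cls.const _ (isBigO_refl _ _)
  refine (h7.mul isOpen_Om h6).mono_eq (Eventually.of_forall fun q => ?_)
  simp

/-- the logarithmic weight -/
noncomputable def Lw (q : QQ X Z) : ℝ := Lg (fR q)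

theorem one_le_Lw {q : QQ X Z} (hq : q ∈ Om X Z) : 1 ≤ Lw q := one_le_Lg (fR_pos (mem_Om.1 hq))

theorem tendsto_Lw {q₀ : QQ X Z} (h₀ : q₀.2 = 0) : Tendsto (Lw : QQ X Z → ℝ)
    (𝓝[Om X Z] q₀) atTop := by
  refine tendsto_Lg.comp ?_
  rw [tendsto_nhdsWithin_iff]
  constructor
  · have h1 : Continuous (fR : QQ X Z → ℝ) := contDiff_fR.continuous
    have h2 := (h1.tendsto q₀).mono_left (nhdsWithin_le_nhds (s := Om X Z))
    have h3 : fR q₀ = 0 := by unfold fR; simp [h₀]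
    rwa [h3] at h2
  · filter_upwards [ev_Om q₀] with q hq
    exact fR_pos (mem_Om.1 hq)

theorem one_isBigO_Lw (q₀ : QQ X Z) :
    (fun _ => (1 : ℝ)) =O[𝓝[Om X Z] q₀] (Lw : QQ X Z → ℝ) := by
  refine IsBigO.of_bound 1 ?_
  filter_upwards [ev_Om q₀] with q hq
  have := one_le_Lw hq
  rw [norm_one, one_mul, Real.norm_of_nonneg (by linarith)]
  exact this

theorem inv_Lw_isBigO_one (q₀ : QQ X Z) :
    (fun q => (Lw q)⁻¹) =O[𝓝[Om X Z] q₀] (fun _ : QQ X Z => (1 : ℝ)) := by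
  refine IsBigO.of_bound 1 ?_
  filter_upwards [ev_Om q₀] with q hq
  have := one_le_Lw hq
  rw [norm_one, one_mul, norm_inv, Real.norm_of_nonneg (by linarith)]
  exact inv_le_one_of_one_le₀ this

theorem nu_sq_isBigO_one (q₀ : QQ X Z) :
    (fun q : QQ X Z => nu q * nu q) =O[𝓝[Om X Z] q₀] (fun _ => (1 : ℝ)) := by
  simpa using (nu_isBigO_one q₀).mul (nu_isBigO_one q₀)

theorem nu_pow_isBigO_one (j : ℕ) (q₀ : QQ X Z) :
    (fun q : QQ X Z => nu q ^ j) =O[𝓝[Om X Z] q₀] (fun _ => (1 : ℝ)) := by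
  simpa using (nu_isBigO_one q₀).pow j

/-- inverse of a function of size `nu^2`. -/
theorem C_inv_sq {N : ℕ} {q₀ : QQ X Z} {r : QQ X Z → ℝ} {c : ℝ} (hc : 0 < c)
    (hr : Cls (𝓝[Om X Z] q₀) nu N r (fun q => nu q * nu q))
    (hlow : ∀ᶠ q in 𝓝[Om X Z] q₀, c * (nu q * nu q) ≤ r q) :
    Cls (𝓝[Om X Z] q₀) nu N (fun q => (r q)⁻¹) (fun q => (nu q * nu q)⁻¹) := by
  refine hr.inv isOpen_Om ?_ ?_ ?_
  · filter_upwards [ev_Om q₀, hlow] with q hq h
    have := nu_pos hq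
    have : 0 < c * (nu q * nu q) := by positivity
    linarith
  · filter_upwards [ev_Om q₀] with q hq
    have := nu_pos hq
    positivity
  · refine IsBigO.of_bound c⁻¹ ?_
    filter_upwards [ev_Om q₀, hlow] with q hq h
    have h1 := nu_pos hq
    have h2 : 0 < c * (nu q * nu q) := by positivity
    rw [Real.norm_of_nonneg (by have : 0 < r q := by linarith
                                positivity), Real.norm_of_nonneg (by positivity), ← mul_inv]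
    exact inv_anti₀ h2 h

theorem C_inv_one_add {N : ℕ} {q₀ : QQ X Z} {r : QQ X Z → ℝ}
    (hr : Cls (𝓝[Om X Z] q₀) nu N r (fun q => nu q * nu q))
    (hpos : ∀ᶠ q in 𝓝[Om X Z] q₀, 0 < r q) :
    Cls (𝓝[Om X Z] q₀) nu N (fun q => (1 + r q)⁻¹) (fun _ => (1 : ℝ)) := by
  have h1 : Cls (𝓝[Om X Z] q₀) nu N (fun q => 1 + r q) (fun _ => (1 : ℝ)) := by
    have h4 : Cls (𝓝[Om X Z] q₀) nu N (fun _ : QQ X Z => (1 : ℝ)) (fun _ => (1 : ℝ)) :=
      Cls.const _ (isBigO_refl _ _)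
    exact h4.add isOpen_Om (hr.mono_w (nu_sq_isBigO_one q₀))
  have h2 := h1.inv isOpen_Om (hne := ?_) (hwne := ?_) (hinv := ?_)
  · exact h2.mono_eq (Eventually.of_forall fun q => by simp)
  · filter_upwards [hpos] with q hq
    positivity
  · exact Eventually.of_forall fun q => one_ne_zero
  · refine IsBigO.of_bound 1 ?_
    filter_upwards [hpos] with q hq
    rw [norm_inv, Real.norm_of_nonneg (by linarith)]
    simpa using inv_le_one_of_one_le₀ (by linarith : (1 : ℝ) ≤ 1 + r q)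

theorem C_Lg {N : ℕ} {q₀ : QQ X Z} {r : QQ X Z → ℝ} {c : ℝ} (hc : 0 < c)
    (hr : Cls (𝓝[Om X Z] q₀) nu N r (fun q => nu q * nu q))
    (hlow : ∀ᶠ q in 𝓝[Om X Z] q₀, c * (nu q * nu q) ≤ r q)
    (hO : (fun q => Lg (r q)) =O[𝓝[Om X Z] q₀] Lw) :
    Cls (𝓝[Om X Z] q₀) nu N (fun q => Lg (r q)) Lw := by
  have hpos : ∀ᶠ q in 𝓝[Om X Z] q₀, 0 < r q := by
    filter_upwards [ev_Om q₀, hlow] with q hq h
    have := nu_pos hq
    have : 0 < c * (nu q * nu q) := by positivity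
    linarith
  cases N with
  | zero => exact hO
  | succ N =>
    refine ⟨hO, ?_, ?_⟩
    · filter_upwards [hpos, hr.diff] with q h1 h2
      exact (hasDerivAt_Lg h1).differentiableAt.comp q h2
    · have h1 := C_inv_sq hc hr.of_succ hlow
      have h2 := C_inv_one_add hr.of_succ hpos
      have h3 := (((h1.mul isOpen_Om h2).neg isOpen_Om).smul isOpen_Om hr.deriv)
      have h4 : Cls (𝓝[Om X Z] q₀) nu N
          (fun q => (-((r q)⁻¹ * (1 + r q)⁻¹)) • fderiv ℝ r q) (fun q => Lw q / nu q) := by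
        refine h3.mono_w ?_
        have h5 : (fun q : QQ X Z => (1 : ℝ) / nu q) =O[𝓝[Om X Z] q₀] (fun q => Lw q / nu q) := by
          simp only [div_eq_mul_inv]
          exact (one_isBigO_Lw q₀).mul (isBigO_refl _ _)
        refine IsBigO.trans (EventuallyEq.isBigO ?_) h5
        filter_upwards [ev_Om q₀] with q hq
        have := nu_pos hq
        field_simp
      refine h4.congr isOpen_Om ?_
      filter_upwards [hpos, hr.diff] with q h1 h2
      exact (((hasDerivAt_Lg h1).comp_hasFDerivAt q h2.hasFDerivAt).fderiv).symm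

theorem C_inv_Lg {N : ℕ} {q₀ : QQ X Z} {r : QQ X Z → ℝ} {c : ℝ} (hc : 0 < c)
    (hr : Cls (𝓝[Om X Z] q₀) nu N r (fun q => nu q * nu q))
    (hlow : ∀ᶠ q in 𝓝[Om X Z] q₀, c * (nu q * nu q) ≤ r q)
    (hO : (fun q => Lg (r q)) =O[𝓝[Om X Z] q₀] Lw)
    (hO' : (fun q => (Lg (r q))⁻¹) =O[𝓝[Om X Z] q₀] (fun q => (Lw q)⁻¹)) :
    Cls (𝓝[Om X Z] q₀) nu N (fun q => (Lg (r q))⁻¹) (fun q => (Lw q)⁻¹) := by
  refine (C_Lg hc hr hlow hO).inv isOpen_Om ?_ ?_ hO'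
  · filter_upwards [ev_Om q₀, hlow] with q hq h
    have := nu_pos hq
    have : 0 < c * (nu q * nu q) := by positivity
    exact (Lg_pos (by linarith)).ne'
  · filter_upwards [ev_Om q₀] with q hq
    have := one_le_Lw hq
    positivity

theorem C_de {N : ℕ} {q₀ : QQ X Z} {r : QQ X Z → ℝ} {c : ℝ} (hc : 0 < c)
    (hr : Cls (𝓝[Om X Z] q₀) nu N r (fun q => nu q * nu q))
    (hlow : ∀ᶠ q in 𝓝[Om X Z] q₀, c * (nu q * nu q) ≤ r q)
    (hO : (fun q => Lg (r q)) =O[𝓝[Om X Z] q₀] Lw)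
    (hO' : (fun q => (Lg (r q))⁻¹) =O[𝓝[Om X Z] q₀] (fun q => (Lw q)⁻¹)) :
    Cls (𝓝[Om X Z] q₀) nu N (fun q => de (r q)) (fun q => (nu q * nu q)⁻¹ * (Lw q)⁻¹) := by
  have hpos : ∀ᶠ q in 𝓝[Om X Z] q₀, 0 < r q := by
    filter_upwards [ev_Om q₀, hlow] with q hq h
    have := nu_pos hq
    have : 0 < c * (nu q * nu q) := by positivity
    linarith
  have h1 := C_inv_sq hc hr hlow
  have h2 := C_inv_one_add hr hpos
  have h3 := C_inv_Lg hc hr hlow hO hO'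
  have h4 := ((h1.mul isOpen_Om h2).mul isOpen_Om h3).neg isOpen_Om
  exact h4.mono_eq (Eventually.of_forall fun q => by simp)

end Pool.Agent.Lib.MP_4f3c81_gt
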