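import Pool.Agent.Lib.MP_4f3c81_gt.Transfer

/-!
# The action on `ℝ^m`
-/

open Filter Topology Asymptotics Set Matrix
open scoped ContDiff

namespace Pool.Agent.Lib.MP_4f3c81_gt

variable (n d j : ℕ)

/-- first factor -/
abbrev XX : Type := EuclideanSpace ℝ (Fin (n + 2))
/-- second factor -/
abbrev ZZ : Type := EuclideanSpace ℝ (Fin (d + 1))
/-- total space -/
abbrev EE : Type := EuclideanSpace ℝ (Fin (n + 2 + (d + 1)))
/-- the group -/
abbrev GG : Type := SpecialLinearGroup (Fin (n + 2)) ℝ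

/-- the splitting -/
noncomputable def Leq : EE n d ≃L[ℝ] XX n × ZZ d :=
  ContinuousLinearEquiv.ofFinrankEq (by simp)

/-- first coordinate of the second factor -/
noncomputable def lamZ : ZZ d →L[ℝ] ℝ := EuclideanSpace.proj (0 : Fin (d + 1))

/-- matrix entries of a group element -/
def ent (g : GG n) : Fin (n + 2) → Fin (n + 2) → ℝ := fun i j => g.1 i j

/-- linear map of a group element -/
noncomputable def TG (g : GG n) : XX n →L[ℝ] XX n := TMc (n + 2) (ent n g)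

theorem TG_eq (g : GG n) : TG n g = TM g.1 := rfl

theorem TG_one : TG n 1 = ContinuousLinearMap.id ℝ _ := TM_one

theorem TG_mul (g h : GG n) : TG n (g * h) = (TG n g).comp (TG n h) := TM_mul g.1 h.1

theorem det_ent (g : GG n) : (Matrix.of (ent n g)).det ≠ 0 := by
  have h : g.1.det ≠ 0 := by
    rw [g.2]; exact one_ne_zero
  exact h

theorem TG_mem (g : GG n) : TG n g ∈ Inj (XX n) := TM_mem_Inj_of_det (det_ent n g)

/-- the extension of the action to matrices -/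
noncomputable def BB (q : (Fin (n + 2) → Fin (n + 2) → ℝ) × EE n d) : EE n d :=
  tact (lamZ d) j (Leq n d) (TMc (n + 2) q.1) q.2

/-- the action -/
noncomputable def AA (g : GG n) (x : EE n d) : EE n d :=
  tact (lamZ d) j (Leq n d) (TG n g) x

theorem AA_eq_BB (g : GG n) (x : EE n d) : AA n d j g x = BB n d j (ent n g, x) := rfl

theorem contDiffOn_tact' : ContDiffOn ℝ ((j + 1 : ℕ) : WithTop ℕ∞)
    (fun q : (XX n →L[ℝ] XX n) × EE n d => tact (lamZ d) j (Leq n d) q.1 q.2)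
    {q | q.1 ∈ Inj (XX n)} :=
  contDiffOn_tact (lamZ d) j (Leq n d)

theorem contDiffOn_param : ContDiffOn ℝ ((j + 1 : ℕ) : WithTop ℕ∞)
    (fun q : (Fin (n + 2) → Fin (n + 2) → ℝ) × EE n d => (TMc (n + 2) q.1, q.2))
    {q | (Matrix.of q.1).det ≠ 0} :=
  (((TMc (n + 2)).contDiff.comp contDiff_fst).prodMk contDiff_snd).contDiffOn

theorem BB_eq : BB n d j =
    ((fun q : (XX n →L[ℝ] XX n) × EE n d => tact (lamZ d) j (Leq n d) q.1 q.2) ∘
      (fun q : (Fin (n + 2) → Fin (n + 2) → ℝ) × EE n d => (TMc (n + 2) q.1, q.2))) := rfl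

theorem contDiffOn_BB' : ContDiffOn ℝ ((j + 1 : ℕ) : WithTop ℕ∞)
    ((fun q : (XX n →L[ℝ] XX n) × EE n d => tact (lamZ d) j (Leq n d) q.1 q.2) ∘
      (fun q : (Fin (n + 2) → Fin (n + 2) → ℝ) × EE n d => (TMc (n + 2) q.1, q.2)))
    {q | (Matrix.of q.1).det ≠ 0} :=
  (contDiffOn_tact' n d j).comp (contDiffOn_param n d j) (fun _ hq => TM_mem_Inj_of_det hq)

theorem contDiffOn_BB : ContDiffOn ℝ ((j + 1 : ℕ) : WithTop ℕ∞) (BB n d j)
    {q | (Matrix.of q.1).det ≠ 0} := by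
  rw [BB_eq]
  exact contDiffOn_BB' n d j

theorem AA_one (x : EE n d) : AA n d j 1 x = x := by
  unfold AA
  rw [TG_one]
  exact tact_id _ _ _ _

theorem AA_mul (g h : GG n) (x : EE n d) : AA n d j (g * h) x = AA n d j g (AA n d j h x) := by
  unfold AA
  rw [TG_mul]
  exact tact_comp _ _ _ (TG_mem n g) (TG_mem n h) _

theorem AA_zero (g : GG n) : AA n d j g 0 = 0 := tact_zero _ _ _ _

theorem contDiff_AA (g : GG n) : ContDiff ℝ ((j + 1 : ℕ) : WithTop ℕ∞) (AA n d j g) := by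
  have h1 : ContDiffOn ℝ ((j + 1 : ℕ) : WithTop ℕ∞)
      (fun x : EE n d => BB n d j (ent n g, x)) univ := by
    refine (contDiffOn_BB n d j).comp (contDiff_const.prodMk contDiff_id).contDiffOn ?_
    intro x _
    exact det_ent n g
  exact contDiffOn_univ.1 h1

theorem continuous_ent : Continuous (ent n) := by
  have h2 : Continuous (fun g : GG n => g.1) := continuous_subtype_val
  exact h2

theorem continuous_AA : Continuous fun q : GG n × EE n d => AA n d j q.1 q.2 := by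
  have h1 : Continuous (fun q : GG n × EE n d => (ent n q.1, q.2)) :=
    ((continuous_ent n).comp continuous_fst).prodMk continuous_snd
  have h2 : ContinuousOn (BB n d j) {q | (Matrix.of q.1).det ≠ 0} :=
    (contDiffOn_BB n d j).continuousOn
  have h3 : Continuous (BB n d j ∘ (fun q : GG n × EE n d => (ent n q.1, q.2))) := by
    apply h2.comp_continuous h1
    intro q
    exact det_ent n q.1
  refine h3.congr fun q => ?_
  exact (AA_eq_BB n d j q.1 q.2).symm

theorem flow_dSL' : Flow (X := XX n) (fun t => TM (dSL n t).1)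
      (EuclideanSpace.proj (0 : Fin (n + 2)))
      (EuclideanSpace.single (0 : Fin (n + 2)) (1 : ℝ)) := flow_dSL n

theorem norm_single_ZZ : ‖(EuclideanSpace.single (0 : Fin (d + 1)) (1 : ℝ) : ZZ d)‖ = 1 := by
  simp

theorem lamZ_single : lamZ d (EuclideanSpace.single (0 : Fin (d + 1)) (1 : ℝ)) = 1 := by
  simp [lamZ]

theorem not_lin_aux {U V : Set (EE n d)} (hU : IsOpen U) (hV : IsOpen V)
    (h0V : (0 : EE n d) ∈ V) (hVU : V ⊆ U) {φ : EE n d → EE n d}
    (hφ : ContDiffOn ℝ ((j + 1 : ℕ) : WithTop ℕ∞) φ U) (hinj : InjOn φ U) (hφ0 : φ 0 = 0)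
    (heq : ∀ᶠ τ in 𝓝 (0 : ℝ), ∀ x ∈ V,
      φ (tact (lamZ d) j (Leq n d) (TM (dSL n τ).1) x) =
        fderiv ℝ (tact (lamZ d) j (Leq n d) (TM (dSL n τ).1)) 0 (φ x)) : False :=
  not_lin_tact (lamZ d) j (Leq n d) (flow_dSL' n) (norm_single_ZZ d) (lamZ_single d)
    hU hV h0V hVU hφ hinj hφ0 heq

theorem AA_def (g : GG n) : AA n d j g = tact (lamZ d) j (Leq n d) (TM g.1) := rfl

theorem dSL_eventually {N : Set (GG n)} (hN : N ∈ 𝓝 (1 : GG n)) :
    ∀ᶠ t in 𝓝 (0 : ℝ), dSL n t ∈ N := by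
  have h1 := (continuous_dSL n).tendsto 0
  rw [dSL_zero] at h1
  exact h1 hN

theorem not_lin {U V : Set (EE n d)} {N : Set (GG n)} (hU : IsOpen U) (hV : IsOpen V)
    (h0V : 0 ∈ V) (hVU : V ⊆ U) (hN : N ∈ 𝓝 (1 : GG n)) {φ : EE n d → EE n d}
    (hφ : ContDiffOn ℝ ((j + 1 : ℕ) : WithTop ℕ∞) φ U) (hinj : InjOn φ U) (hφ0 : φ 0 = 0)
    (heq : ∀ g ∈ N, ∀ x ∈ V, φ (AA n d j g x) = fderiv ℝ (AA n d j g) 0 (φ x)) : False := by
  apply not_lin_aux n d j hU hV h0V hVU hφ hinj hφ0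
  filter_upwards [dSL_eventually n hN] with τ hτ x hx
  have h := heq (dSL n τ) hτ x hx
  rw [AA_def] at h
  exact h

end Pool.Agent.Lib.MP_4f3c81_gt
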