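import Pool.Agent.Lib.MP_4f3c81_gt.Slow

/-!
# One variable calculus: `exp (b(t) eta(t^2)) - 1` is not of class `C^j`
-/

open Filter Topology Asymptotics Set
open scoped ContDiff

namespace Pool.Agent.Lib.MP_4f3c81_gt

/-- one variable coefficient -/
noncomputable def bb (j : ℕ) (t : ℝ) : ℝ := 1 / 4 * (t * (1 + t * t)⁻¹) ^ j

theorem taylor_monomial_of_tendsto {u : ℝ → ℝ} {s : Set ℝ} {j : ℕ} (hs : Convex ℝ s)
    (hs0 : (0 : ℝ) ∈ s) (hsnhds : s ∈ 𝓝 (0 : ℝ)) (hu : ContDiffOn ℝ j u s)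
    (hlow : ∀ i < j, Tendsto (fun t => u t / t ^ i) (𝓝[>] 0) (𝓝 0)) :
    ∀ i ≤ j, ∃ c : ℝ, ∀ x, taylorWithinEval u i s 0 x = c * x ^ i := by
  intro i
  induction i with
  | zero =>
    intro _
    exact ⟨u 0, fun x => by simp⟩
  | succ i ih =>
    intro hi
    obtain ⟨c, hc⟩ := ih (by omega)
    have h1 : (fun x ↦ u x - taylorWithinEval u i s 0 x) =o[𝓝[s] 0] fun x ↦ (x - 0) ^ i :=
      taylor_isLittleO hs hs0 (hu.of_le (by exact_mod_cast (by omega : i ≤ j)))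
    have h2 : (fun x ↦ u x - c * x ^ i) =o[𝓝[>] 0] fun x ↦ x ^ i := by
      have h3 := h1.mono (show 𝓝[>] (0 : ℝ) ≤ 𝓝[s] 0 from by
        rw [nhdsWithin_eq_nhds.2 hsnhds]; exact nhdsWithin_le_nhds)
      simpa [hc] using h3
    have h4 : Tendsto (fun x : ℝ => (u x - c * x ^ i) / x ^ i) (𝓝[>] 0) (𝓝 0) :=
      h2.tendsto_div_nhds_zero
    have h5 := (hlow i (by omega)).sub h4
    have h6 : Tendsto (fun _ : ℝ => c) (𝓝[>] 0) (𝓝 (0 - 0)) := by
      refine h5.congr' ?_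
      filter_upwards [self_mem_nhdsWithin] with x hx
      have hx' : (0 : ℝ) < x := hx
      field_simp
      ring
    have hc0 : c = 0 := by
      have := tendsto_nhds_unique h6 tendsto_const_nhds
      simpa using this.symm
    refine ⟨(((i : ℝ) + 1) * i.factorial)⁻¹ * iteratedDerivWithin (i + 1) u s 0, fun x => ?_⟩
    rw [taylorWithinEval_succ, hc, hc0]
    simp only [zero_mul, zero_add, sub_zero, smul_eq_mul]
    ring

theorem tendsto_div_pow_of_contDiffOn {u : ℝ → ℝ} {s : Set ℝ} {j : ℕ} (hs : Convex ℝ s)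
    (hs0 : (0 : ℝ) ∈ s) (hsnhds : s ∈ 𝓝 (0 : ℝ)) (hu : ContDiffOn ℝ j u s)
    (hlow : ∀ i < j, Tendsto (fun t => u t / t ^ i) (𝓝[>] 0) (𝓝 0)) :
    ∃ c : ℝ, Tendsto (fun t => u t / t ^ j) (𝓝[>] 0) (𝓝 c) := by
  obtain ⟨c, hc⟩ := taylor_monomial_of_tendsto hs hs0 hsnhds hu hlow j le_rfl
  refine ⟨c, ?_⟩
  have h1 : (fun x ↦ u x - taylorWithinEval u j s 0 x) =o[𝓝[s] 0] fun x ↦ (x - 0) ^ j :=
    taylor_isLittleO hs hs0 hu
  have h2 : (fun x ↦ u x - c * x ^ j) =o[𝓝[>] 0] fun x ↦ x ^ j := by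
    have h3 := h1.mono (show 𝓝[>] (0 : ℝ) ≤ 𝓝[s] 0 from by
      rw [nhdsWithin_eq_nhds.2 hsnhds]; exact nhdsWithin_le_nhds)
    simpa [hc] using h3
  have h4 : Tendsto (fun x : ℝ => (u x - c * x ^ j) / x ^ j) (𝓝[>] 0) (𝓝 0) :=
    h2.tendsto_div_nhds_zero
  have h5 := h4.add_const c
  rw [zero_add] at h5
  refine h5.congr' ?_
  filter_upwards [self_mem_nhdsWithin] with x hx
  have hx' : (0 : ℝ) < x := hx
  field_simp
  ring

theorem tendsto_sq_nhdsGT : Tendsto (fun t : ℝ => t ^ 2) (𝓝[>] 0) (𝓝[>] 0) := by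
  rw [tendsto_nhdsWithin_iff]
  constructor
  · have : Tendsto (fun t : ℝ => t ^ 2) (𝓝 0) (𝓝 (0 ^ 2)) := (continuous_pow 2).tendsto 0
    rw [zero_pow two_ne_zero] at this
    exact this.mono_left nhdsWithin_le_nhds
  · filter_upwards [self_mem_nhdsWithin] with t ht
    have ht' : (0 : ℝ) < t := ht
    exact pow_pos ht' 2

theorem tendsto_eta_sq : Tendsto (fun t : ℝ => eta (t ^ 2)) (𝓝[>] 0) atTop :=
  tendsto_eta.comp tendsto_sq_nhdsGT

/-- `eta r ≤ r⁻¹`. -/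
theorem eta_le_inv {r : ℝ} (hr : 0 < r) : eta r ≤ r⁻¹ := by
  have h1 : eta r ≤ Lg r - 1 := Real.log_le_sub_one_of_pos (Lg_pos hr)
  have h2 : Real.log (1 + r⁻¹) ≤ (1 + r⁻¹) - 1 :=
    Real.log_le_sub_one_of_pos (by have := inv_pos.2 hr; linarith)
  unfold Lg at h1
  linarith

/-- `eta (t^2) ≤ 4 t^{-1/2}`-type bound, in the form `t * eta(t^2) → 0`. -/
theorem tendsto_mul_eta_sq : Tendsto (fun t : ℝ => t * eta (t ^ 2)) (𝓝[>] 0) (𝓝 0) := by
  -- `eta r = log (Lg r)`, `Lg r ≤ 1 + log (1 + 1/r)`, use `log x ≤ x` twice on square roots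
  have hbound : ∀ t : ℝ, 0 < t → t < 1 → eta (t ^ 2) ≤ 4 * t⁻¹ ^ (1 / 2 : ℝ) := by
    intro t ht ht1
    have hinv : 1 ≤ t⁻¹ := (one_le_inv₀ ht).2 ht1.le
    have h1 : eta (t ^ 2) ≤ Real.log (1 + (t ^ 2)⁻¹) := by
      have := Real.log_le_sub_one_of_pos (Lg_pos (pow_pos ht 2))
      unfold eta
      unfold Lg at this ⊢
      linarith
    set y : ℝ := t⁻¹ ^ (1 / 2 : ℝ) with hy
    have hy1 : 1 ≤ y := Real.one_le_rpow hinv (by norm_num)
    have hyt : y ^ 2 = t⁻¹ := by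
      rw [hy, ← Real.rpow_natCast, ← Real.rpow_mul (by positivity)]
      norm_num
    have h2 : 1 + (t ^ 2)⁻¹ ≤ (1 + y) ^ 4 := by
      have : (t ^ 2)⁻¹ = y ^ 4 := by
        rw [← inv_pow, ← hyt]; ring
      rw [this]
      nlinarith [pow_pos (by linarith : 0 < y) 2, pow_pos (by linarith : 0 < y) 3]
    have h3 : Real.log (1 + (t ^ 2)⁻¹) ≤ 4 * Real.log (1 + y) := by
      have h4 := Real.log_le_log (by positivity) h2
      rwa [Real.log_pow] at h4
    have h5 : Real.log (1 + y) ≤ y := by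
      have := Real.log_le_sub_one_of_pos (by linarith : 0 < 1 + y)
      linarith
    linarith
  have hlim : Tendsto (fun t : ℝ => 4 * t ^ (1 / 2 : ℝ)) (𝓝[>] 0) (𝓝 0) := by
    have h : ContinuousAt (fun t : ℝ => 4 * t ^ (1 / 2 : ℝ)) 0 :=
      continuousAt_const.mul (Real.continuousAt_rpow_const _ _ (Or.inr (by norm_num)))
    have h2 := h.tendsto
    simp only [one_div] at h2 ⊢
    rw [Real.zero_rpow (by norm_num), mul_zero] at h2
    exact h2.mono_left nhdsWithin_le_nhds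
  refine squeeze_zero' ?_ ?_ hlim
  · filter_upwards [self_mem_nhdsWithin] with t ht
    have ht' : (0 : ℝ) < t := ht
    exact mul_nonneg ht'.le (eta_nonneg (pow_pos ht' 2))
  · have h1 : ∀ᶠ t : ℝ in 𝓝[>] 0, t < 1 :=
      (eventually_lt_nhds one_pos).filter_mono nhdsWithin_le_nhds
    filter_upwards [self_mem_nhdsWithin, h1] with t ht ht1
    have ht' : (0 : ℝ) < t := ht
    have h2 := mul_le_mul_of_nonneg_left (hbound t ht' ht1) ht'.le
    refine h2.trans (le_of_eq ?_)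
    have h3 : t * t⁻¹ ^ (1 / 2 : ℝ) = t ^ (1 / 2 : ℝ) := by
      rw [Real.inv_rpow ht'.le, ← Real.rpow_neg ht'.le]
      nth_rewrite 1 [← Real.rpow_one t]
      rw [← Real.rpow_add ht']
      norm_num
    rw [← h3]; ring

theorem bb_bounds {j : ℕ} {t : ℝ} (ht : 0 < t) (ht1 : t < 1) :
    1 / 4 * (1 / 2) ^ j * t ^ j ≤ bb j t ∧ bb j t ≤ t ^ j := by
  unfold bb
  have hp : 0 < 1 + t * t := by positivity
  have h1 : (1 / 2 : ℝ) ≤ (1 + t * t)⁻¹ := by
    rw [one_div]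
    exact inv_anti₀ hp (by nlinarith)
  have h2 : (1 + t * t)⁻¹ ≤ 1 := inv_le_one_of_one_le₀ (by nlinarith)
  have h3 : 0 < (1 + t * t)⁻¹ := inv_pos.2 hp
  constructor
  · rw [mul_assoc, ← mul_pow]
    have : (1 / 2 * t) ^ j ≤ (t * (1 + t * t)⁻¹) ^ j := by
      apply pow_le_pow_left₀ (by positivity)
      nlinarith
    linarith
  · have : (t * (1 + t * t)⁻¹) ^ j ≤ t ^ j := by
      apply pow_le_pow_left₀ (by positivity)
      nlinarith
    have h4 : 0 ≤ (t * (1 + t * t)⁻¹) ^ j := by positivity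
    linarith

/-- the key one variable fact -/
theorem no_contDiffOn {j : ℕ} {s : Set ℝ} (hs : Convex ℝ s) (hs0 : (0 : ℝ) ∈ s)
    (hsnhds : s ∈ 𝓝 (0 : ℝ)) {u : ℝ → ℝ} (hu : ContDiffOn ℝ j u s)
    (heq : ∀ᶠ t in 𝓝[>] (0 : ℝ), u t = Real.exp (bb j t * eta (t ^ 2)) - 1) : False := by
  have h1 : ∀ᶠ t : ℝ in 𝓝[>] 0, t < 1 :=
    (eventually_lt_nhds one_pos).filter_mono nhdsWithin_le_nhds
  have hbig : Tendsto (fun t => u t / t ^ j) (𝓝[>] 0) atTop := by
    have h2 : Tendsto (fun t : ℝ => 1 / 4 * (1 / 2) ^ j * eta (t ^ 2)) (𝓝[>] 0) atTop :=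
      tendsto_eta_sq.const_mul_atTop (by positivity)
    refine tendsto_atTop_mono' _ ?_ h2
    filter_upwards [heq, h1, self_mem_nhdsWithin] with t ht ht1 ht0
    have ht0' : (0 : ℝ) < t := ht0
    rw [ht, le_div_iff₀ (by positivity)]
    have h3 := Real.add_one_le_exp (bb j t * eta (t ^ 2))
    have h4 := (bb_bounds (j := j) ht0' ht1).1
    have h5 := eta_nonneg (pow_pos ht0' 2)
    nlinarith
  have hlow : ∀ i < j, Tendsto (fun t => u t / t ^ i) (𝓝[>] 0) (𝓝 0) := by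
    intro i hi
    -- `v t = bb j t * eta (t^2) ≤ t^(i+1) eta(t^2)`, and `exp v - 1 ≤ v * exp v`
    have h2 : Tendsto (fun t : ℝ => t * eta (t ^ 2) * Real.exp (t * eta (t ^ 2))) (𝓝[>] 0)
        (𝓝 (0 * Real.exp 0)) :=
      tendsto_mul_eta_sq.mul ((Real.continuous_exp.tendsto 0).comp tendsto_mul_eta_sq)
    rw [zero_mul] at h2
    refine squeeze_zero' ?_ ?_ h2
    · filter_upwards [heq, h1, self_mem_nhdsWithin] with t ht ht1 ht0
      have ht0' : (0 : ℝ) < t := ht0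
      have h4 := (bb_bounds (j := j) ht0' ht1).1
      have h5 := eta_nonneg (pow_pos ht0' 2)
      have h6 : 0 ≤ bb j t := le_trans (by positivity) h4
      rw [ht]
      have h7 : 1 ≤ Real.exp (bb j t * eta (t ^ 2)) := Real.one_le_exp (mul_nonneg h6 h5)
      apply div_nonneg (by linarith) (by positivity)
    · filter_upwards [heq, h1, self_mem_nhdsWithin] with t ht ht1 ht0
      have ht0' : (0 : ℝ) < t := ht0
      have h4 := (bb_bounds (j := j) ht0' ht1).2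
      have h4' := (bb_bounds (j := j) ht0' ht1).1
      have h5 := eta_nonneg (pow_pos ht0' 2)
      have h6 : 0 ≤ bb j t := le_trans (by positivity) h4'
      set v := bb j t * eta (t ^ 2) with hv
      have hv0 : 0 ≤ v := mul_nonneg h6 h5
      have h7 : Real.exp v - 1 ≤ v * Real.exp v := by
        have h8 := Real.add_one_le_exp (-v)
        have h9 : Real.exp v * Real.exp (-v) = 1 := by rw [← Real.exp_add]; simp
        nlinarith [Real.exp_pos v]
      have h10 : t ^ j ≤ t ^ (i + 1) := pow_le_pow_of_le_one ht0'.le ht1.le (by omega)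
      have h11 : v ≤ t ^ i * (t * eta (t ^ 2)) := by
        calc v ≤ t ^ (i + 1) * eta (t ^ 2) :=
              mul_le_mul_of_nonneg_right (h4.trans h10) h5
          _ = _ := by ring
      have h12 : v ≤ t * eta (t ^ 2) := by
        have h13 : t ^ i ≤ 1 := pow_le_one₀ ht0'.le ht1.le
        have h14 : 0 ≤ t * eta (t ^ 2) := mul_nonneg ht0'.le h5
        nlinarith
      rw [ht, div_le_iff₀ (by positivity)]
      calc Real.exp v - 1 ≤ v * Real.exp v := h7
        _ ≤ (t ^ i * (t * eta (t ^ 2))) * Real.exp (t * eta (t ^ 2)) := by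
            apply mul_le_mul h11 (Real.exp_le_exp.2 h12) (Real.exp_pos _).le
            have := mul_nonneg ht0'.le h5
            positivity
        _ = _ := by ring
  obtain ⟨c, hc⟩ := tendsto_div_pow_of_contDiffOn hs hs0 hsnhds hu hlow
  exact not_tendsto_nhds_of_tendsto_atTop hbig c hc

end Pool.Agent.Lib.MP_4f3c81_gt
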