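import Pool.Agent.Lib.MP_4f3c81_gt.Act
import Pool.Agent.Lib.MP_4f3c81_gt.OneVar

/-!
# The conjugated action is not linearizable
-/

open Filter Topology Asymptotics Set
open scoped ContDiff

namespace Pool.Agent.Lib.MP_4f3c81_gt

variable {X Z : Type} [NormedAddCommGroup X] [InnerProductSpace ℝ X]
  [NormedAddCommGroup Z] [InnerProductSpace ℝ Z]

/-- the data of the one parameter group used in the proof -/
structure Flow (a : ℝ → X →L[ℝ] X) (c : X →L[ℝ] ℝ) (e₁ : X) : Prop where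
  norm_e : ‖e₁‖ = 1
  inj : ∀ t, a t ∈ Inj X
  zero : a 0 = ContinuousLinearMap.id ℝ X
  add : ∀ s t, a (s + t) = (a s).comp (a t)
  apply_e : ∀ t, a t e₁ = Real.exp (-t) • e₁
  c_e : c e₁ = 1
  c_apply : ∀ t x, c (a t x) = Real.exp (-t) * c x
  small : ∀ x, (∀ ε > 0, ∃ t, 0 ≤ t ∧ ‖a t x‖ ≤ ε) → x = c x • e₁

/-- radial factor -/
noncomputable def psi (j : ℕ) (s ζ : ℝ) : ℝ := Real.exp (bb j ζ * eta (s ^ 2 + ζ ^ 2)) * s

theorem psi_pos (j : ℕ) {s : ℝ} (hs : 0 < s) (ζ : ℝ) : 0 < psi j s ζ :=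
  mul_pos (Real.exp_pos _) hs

theorem abs_bb_le (j : ℕ) (t : ℝ) : |bb j t| ≤ 1 / 4 := by
  have h := abs_bet_le (ContinuousLinearMap.id ℝ ℝ) j t
  exact h

theorem psi_strictMono (j : ℕ) {s s' : ℝ} (hs : 0 < s) (hss' : s < s') (ζ : ℝ) :
    psi j s ζ < psi j s' ζ := by
  have hs' : 0 < s' := hs.trans hss'
  have h1 : 0 < s ^ 2 + ζ ^ 2 := by positivity
  have h2 : 0 < s' ^ 2 + ζ ^ 2 := by positivity
  have h3 := abs_eta_sub_le h1 h2
  set d := Real.log s' - Real.log s with hd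
  have hd0 : 0 < d := sub_pos.2 (Real.log_lt_log hs hss')
  have h4 : |Real.log (s ^ 2 + ζ ^ 2) - Real.log (s' ^ 2 + ζ ^ 2)| ≤ 2 * d := by
    have h5 := abs_log_exp_sub_le (M := s ^ 2) (W := ζ ^ 2) (s := 0) (s' := 2 * d)
      (by positivity) (by positivity) h1
    have h6 : Real.exp (2 * d) * s ^ 2 = s' ^ 2 := by
      have : Real.exp (2 * d) = Real.exp d ^ 2 := by rw [← Real.exp_nat_mul]; norm_num
      rw [this, ← mul_pow, hd, Real.exp_sub, Real.exp_log hs, Real.exp_log hs']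
      field_simp
    have h7 : |2 * d| = 2 * d := abs_of_pos (by linarith)
    rw [Real.exp_zero, one_mul, h6, zero_sub, abs_neg, h7] at h5
    exact h5
  have h7 : |bb j ζ * (eta (s ^ 2 + ζ ^ 2) - eta (s' ^ 2 + ζ ^ 2))| ≤ 1 / 2 * d := by
    rw [abs_mul]
    have := abs_bb_le j ζ
    have h8 := abs_nonneg (bb j ζ)
    have h9 := abs_nonneg (eta (s ^ 2 + ζ ^ 2) - eta (s' ^ 2 + ζ ^ 2))
    nlinarith
  have h10 := (abs_le.1 h7).2
  unfold psi
  rw [← Real.exp_log hs, ← Real.exp_log hs', ← Real.exp_add, ← Real.exp_add]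
  apply Real.exp_lt_exp.2
  rw [Real.exp_log hs, Real.exp_log hs']
  linarith

/-- the test points -/
noncomputable def pt (e₁ : X) (e : Z) (s ζ : ℝ) : X × Z := (s • e₁, ζ • e)

theorem bet_pt (lam : Z →L[ℝ] ℝ) (j : ℕ) {e : Z} (hlam : lam e = 1) (ζ : ℝ) :
    bet lam j (ζ • e) = bb j ζ := by
  unfold bet bb
  simp [hlam]

theorem Phi_pt (lam : Z →L[ℝ] ℝ) (j : ℕ) {e₁ : X} {e : Z} (he₁ : ‖e₁‖ = 1) (he : ‖e‖ = 1)
    (hlam : lam e = 1) (s ζ : ℝ) :
    Phi lam j (pt e₁ e s ζ) = (psi j s ζ • e₁, ζ • e) := by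
  unfold Phi pt psi
  simp only
  rw [bet_pt lam j hlam, norm_smul, norm_smul, he₁, he, mul_one, mul_one, smul_smul,
    Real.norm_eq_abs, Real.norm_eq_abs, sq_abs, sq_abs]

theorem act_pt (lam : Z →L[ℝ] ℝ) (j : ℕ) {a : ℝ → X →L[ℝ] X} {c : X →L[ℝ] ℝ} {e₁ : X} {e : Z}
    (F : Flow a c e₁) (he : ‖e‖ = 1) (hlam : lam e = 1) {s : ℝ} (hs : 0 < s) (ζ : ℝ) {t : ℝ}
    (ht : 0 ≤ t) :
    ∃ s', 0 < s' ∧ s' ≤ s ∧ act lam j (a t, pt e₁ e s ζ) = pt e₁ e s' ζ ∧
      psi j s' ζ = Real.exp (-t) * psi j s ζ := by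
  set b := fb lam j (a t, pt e₁ e s ζ) * Del lam j (a t, pt e₁ e s ζ) with hb
  have h1 : act lam j (a t, pt e₁ e s ζ) = pt e₁ e (Real.exp (-b) * (s * Real.exp (-t))) ζ := by
    unfold act pt
    refine Prod.ext ?_ rfl
    simp only [map_smul, F.apply_e, smul_smul]
    rfl
  have hs' : 0 < Real.exp (-b) * (s * Real.exp (-t)) := by positivity
  have h2 := Phi_act lam j (F.inj t) (pt e₁ e s ζ)
  rw [h1, Phi_pt lam j F.norm_e he hlam, Phi_pt lam j F.norm_e he hlam] at h2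
  have h3 : psi j (Real.exp (-b) * (s * Real.exp (-t))) ζ = Real.exp (-t) * psi j s ζ := by
    have h4 := congrArg (fun p : X × Z => c p.1) h2
    simp only [map_smul, F.apply_e, F.c_e, smul_eq_mul, mul_one] at h4
    linarith
  refine ⟨_, hs', ?_, h1, h3⟩
  by_contra hcon
  push Not at hcon
  have h5 := psi_strictMono j hs hcon ζ
  rw [h3] at h5
  have h6 : Real.exp (-t) ≤ 1 := Real.exp_le_one_iff.2 (by linarith)
  have h7 := psi_pos j hs ζ
  nlinarith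

theorem act_pt_of_le (lam : Z →L[ℝ] ℝ) (j : ℕ) {a : ℝ → X →L[ℝ] X} {c : X →L[ℝ] ℝ} {e₁ : X}
    {e : Z} (F : Flow a c e₁) (he : ‖e‖ = 1) (hlam : lam e = 1) {s s' : ℝ} (hs' : 0 < s')
    (hs's : s' ≤ s) (ζ : ℝ) :
    ∃ t, 0 ≤ t ∧ act lam j (a t, pt e₁ e s ζ) = pt e₁ e s' ζ ∧
      psi j s' ζ = Real.exp (-t) * psi j s ζ := by
  have hs : 0 < s := lt_of_lt_of_le hs' hs's
  have hle : psi j s' ζ ≤ psi j s ζ := by
    rcases hs's.eq_or_lt with h | h
    · rw [h]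
    · exact (psi_strictMono j hs' h ζ).le
  have hp := psi_pos j hs ζ
  have hp' := psi_pos j hs' ζ
  refine ⟨Real.log (psi j s ζ) - Real.log (psi j s' ζ), sub_nonneg.2 (Real.log_le_log hp' hle),
    ?_, ?_⟩
  · apply Phi_injective lam j
    rw [Phi_act lam j (F.inj _), Phi_pt lam j F.norm_e he hlam, Phi_pt lam j F.norm_e he hlam]
    refine Prod.ext ?_ rfl
    simp only [map_smul, F.apply_e, smul_smul]
    congr 1
    rw [neg_sub, Real.exp_sub, Real.exp_log hp, Real.exp_log hp']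
    field_simp
  · rw [neg_sub, Real.exp_sub, Real.exp_log hp, Real.exp_log hp']
    field_simp

theorem norm_pt {e₁ : X} {e : Z} (he₁ : ‖e₁‖ = 1) (he : ‖e‖ = 1) (s ζ : ℝ) :
    ‖pt e₁ e s ζ‖ = max |s| |ζ| := by
  unfold pt
  rw [Prod.norm_def, norm_smul, norm_smul, he₁, he, mul_one, mul_one]
  rfl

theorem continuous_pt (e₁ : X) (e : Z) : Continuous (fun p : ℝ × ℝ => pt e₁ e p.1 p.2) := by
  unfold pt
  fun_prop

theorem contDiff_bb (j : ℕ) {n : WithTop ℕ∞} : ContDiff ℝ n (bb j) := by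
  unfold bb
  refine contDiff_const.mul (ContDiff.pow ?_ j)
  refine contDiff_id.mul (ContDiff.inv ?_ ?_)
  · exact contDiff_const.add (contDiff_id.mul contDiff_id)
  · intro z
    have := mul_self_nonneg z
    positivity

theorem not_linearizable_aux [CompleteSpace X] [CompleteSpace Z] (lam : Z →L[ℝ] ℝ) (j : ℕ)
    {a : ℝ → X →L[ℝ] X} {c : X →L[ℝ] ℝ} {e₁ : X} {e : Z} (F : Flow a c e₁)
    (he : ‖e‖ = 1) (hlam : lam e = 1) {U V : Set (X × Z)} (hU : IsOpen U) (hV : V ∈ 𝓝 (0 : X × Z))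
    (hVU : V ⊆ U) {φ : X × Z → X × Z} (hφ : ContDiffOn ℝ ((j + 1 : ℕ) : WithTop ℕ∞) φ U)
    (hinj : InjOn φ U) (hφ0 : φ 0 = 0) {τ₀ : ℝ} (hτ₀ : 0 < τ₀)
    (heq : ∀ τ, 0 ≤ τ → τ ≤ τ₀ → ∀ p ∈ V, φ (act lam j (a τ, p)) = (a τ (φ p).1, (φ p).2)) :
    False := by
  obtain ⟨r, hr, hball⟩ := Metric.mem_nhds_iff.1 hV
  have hmem : ∀ s ζ : ℝ, |s| < r → |ζ| < r → pt e₁ e s ζ ∈ V := by
    intro s ζ hs hζ
    apply hball
    rw [mem_ball_zero_iff, norm_pt F.norm_e he]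
    exact max_lt hs hζ
  -- (2) the equation holds for all `t ≥ 0` at the test points
  have hchain : ∀ τ, 0 ≤ τ → τ ≤ τ₀ → ∀ (n : ℕ) (s ζ : ℝ), 0 < s → s < r → |ζ| < r →
      φ (act lam j (a (n * τ), pt e₁ e s ζ)) =
        (a (n * τ) (φ (pt e₁ e s ζ)).1, (φ (pt e₁ e s ζ)).2) := by
    intro τ hτ hττ₀ n
    induction n with
    | zero =>
      intro s ζ hs hsr hζ
      simp only [CharP.cast_eq_zero, zero_mul, F.zero, act_id]
      rfl
    | succ n ih =>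
      intro s ζ hs hsr hζ
      obtain ⟨s', hs', hs's, hact, -⟩ :=
        act_pt lam j F he hlam hs ζ (t := n * τ) (by positivity)
      have h1 : ((n + 1 : ℕ) : ℝ) * τ = τ + n * τ := by push_cast; ring
      rw [h1, F.add, act_comp lam j (F.inj _) (F.inj _), hact]
      have hin : pt e₁ e s' ζ ∈ V := hmem s' ζ (by rw [abs_of_pos hs']; linarith) hζ
      rw [heq τ hτ hττ₀ _ hin, ← hact, ih s ζ hs hsr hζ]
      rfl
  have hall : ∀ t, 0 ≤ t → ∀ (s ζ : ℝ), 0 < s → s < r → |ζ| < r →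
      φ (act lam j (a t, pt e₁ e s ζ)) =
        (a t (φ (pt e₁ e s ζ)).1, (φ (pt e₁ e s ζ)).2) := by
    intro t ht s ζ hs hsr hζ
    obtain ⟨n, hn⟩ := exists_nat_gt (t / τ₀)
    have hn0 : (0 : ℝ) < n := lt_of_le_of_lt (by positivity) hn
    have h1 : t / n ≤ τ₀ := by
      rw [div_le_iff₀ hn0]
      rw [div_lt_iff₀ hτ₀] at hn
      linarith
    have h2 := hchain (t / n) (by positivity) h1 n s ζ hs hsr hζ
    have h3 : (n : ℝ) * (t / n) = t := by field_simp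
    rwa [h3] at h2
  -- (3)
  have hrel : ∀ s s' ζ : ℝ, 0 < s' → s' ≤ s → s < r → |ζ| < r →
      ∃ t, 0 ≤ t ∧ φ (pt e₁ e s' ζ) = (a t (φ (pt e₁ e s ζ)).1, (φ (pt e₁ e s ζ)).2) ∧
        psi j s' ζ = Real.exp (-t) * psi j s ζ := by
    intro s s' ζ hs' hs's hsr hζ
    obtain ⟨t, ht, hact, hpsi⟩ := act_pt_of_le lam j F he hlam hs' hs's ζ
    refine ⟨t, ht, ?_, hpsi⟩
    rw [← hact]
    exact hall t ht s ζ (lt_of_lt_of_le hs' hs's) hsr hζ
  set h : ℝ → ℝ → ℝ := fun s ζ => c (φ (pt e₁ e s ζ)).1 with hh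
  have hprop' : ∀ s s' ζ : ℝ, 0 < s' → s' ≤ s → s < r → |ζ| < r →
      h s' ζ * psi j s ζ = h s ζ * psi j s' ζ := by
    intro s s' ζ hs' hs's hsr hζ
    obtain ⟨t, ht, h1, h2⟩ := hrel s s' ζ hs' hs's hsr hζ
    have h3 : h s' ζ = Real.exp (-t) * h s ζ := by
      simp only [hh, h1]
      exact F.c_apply t _
    rw [h3, h2]; ring
  set s₀ : ℝ := r / 2 with hs₀
  have hs₀pos : 0 < s₀ := by positivity
  have hs₀r : s₀ < r := by rw [hs₀]; linarith
  set aa : ℝ → ℝ := fun ζ => h s₀ ζ / psi j s₀ ζ with haa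
  have hform : ∀ s ζ : ℝ, 0 < s → s < r → |ζ| < r → h s ζ = aa ζ * psi j s ζ := by
    intro s ζ hs hsr hζ
    have hp := psi_pos j hs₀pos ζ
    have h1 : h s ζ * psi j s₀ ζ = h s₀ ζ * psi j s ζ := by
      rcases le_total s s₀ with hc | hc
      · exact hprop' s₀ s ζ hs hc hs₀r hζ
      · exact (hprop' s s₀ ζ hs₀pos hc hsr hζ).symm
    simp only [haa]
    rw [div_mul_eq_mul_div, eq_div_iff hp.ne']
    exact h1
  -- regularity
  have hline : ∀ ζ : ℝ, |ζ| < r → (0, ζ • e) ∈ U := by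
    intro ζ hζ
    have h1 := hVU (hmem 0 ζ (by simpa using hr) hζ)
    simpa [pt] using h1
  set A : ℝ → ℝ := fun ζ => c (fderiv ℝ φ (0, ζ • e) (e₁, 0)).1 with hA
  set I : Set ℝ := Ioo (-r) r with hI
  have hIabs : ∀ ζ ∈ I, |ζ| < r := fun ζ hζ => abs_lt.2 hζ
  have hAcd : ContDiffOn ℝ j A I := by
    have h1 : ContDiffOn ℝ j (fderiv ℝ φ) U := hφ.fderiv_of_isOpen hU (by push_cast; rfl)
    have h2 : ContDiffOn ℝ j (fun ζ : ℝ => fderiv ℝ φ (0, ζ • e)) I := by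
      refine h1.comp (t := U) (g := fderiv ℝ φ) ?_ fun ζ hζ => hline ζ (hIabs ζ hζ)
      exact (contDiff_const.prodMk (contDiff_id.smul contDiff_const)).contDiffOn
    have h3 : ContDiffOn ℝ j (fun ζ : ℝ => fderiv ℝ φ (0, ζ • e) (e₁, 0)) I :=
      h2.clm_apply contDiffOn_const
    exact (c.comp (ContinuousLinearMap.fst ℝ X Z)).contDiff.comp_contDiffOn h3
  have hmapsU : ∀ ζ ∈ I, pt e₁ e s₀ ζ ∈ U := fun ζ hζ =>
    hVU (hmem s₀ ζ (by rw [abs_of_pos hs₀pos]; exact hs₀r) (hIabs ζ hζ))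
  have haacd : ContDiffOn ℝ j aa I := by
    have h0 : ContDiffOn ℝ j φ U := hφ.of_le (by push_cast; exact le_self_add)
    have h1 : ContDiffOn ℝ j (fun ζ : ℝ => φ (pt e₁ e s₀ ζ)) I := by
      refine h0.comp (t := U) (g := φ) ?_ hmapsU
      exact (contDiff_const.prodMk (contDiff_id.smul contDiff_const)).contDiffOn
    have h2 : ContDiffOn ℝ j (h s₀) I :=
      (c.comp (ContinuousLinearMap.fst ℝ X Z)).contDiff.comp_contDiffOn h1
    have h3 : ContDiffOn ℝ j (fun ζ : ℝ => psi j s₀ ζ) I := by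
      intro ζ hζ
      apply ContDiffAt.contDiffWithinAt
      unfold psi
      have h4 : ContDiffAt ℝ j (fun ζ : ℝ => eta (s₀ ^ 2 + ζ ^ 2)) ζ := by
        refine ContDiffAt.comp (g := eta) ζ (contDiffAt_eta (by positivity)) ?_
        exact (contDiff_const.add (contDiff_id.pow 2)).contDiffAt
      exact (((contDiff_bb j).contDiffAt.mul h4).exp).mul contDiffAt_const
    exact h2.div h3 fun ζ _ => (psi_pos j hs₀pos ζ).ne'
  -- (5) for `ζ ≠ 0`, `A ζ = aa ζ * exp (bb ζ eta (ζ^2))`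
  have hφcont : ContinuousOn φ U := hφ.continuousOn
  have hA_eq : ∀ ζ : ℝ, |ζ| < r → ζ ≠ 0 → A ζ = aa ζ * Real.exp (bb j ζ * eta (ζ ^ 2)) := by
    intro ζ hζ hζ0
    have hdiff : DifferentiableAt ℝ φ (0, ζ • e) :=
      (hφ.contDiffAt (hU.mem_nhds (hline ζ hζ))).differentiableAt
        (by norm_cast)
    -- derivative of `s ↦ h s ζ` at `0`
    have hd1 : HasDerivAt (fun s : ℝ => pt e₁ e s ζ) ((e₁, 0) : X × Z) 0 := by
      unfold pt
      have h1 : HasDerivAt (fun s : ℝ => s • e₁) ((1 : ℝ) • e₁) 0 :=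
        (hasDerivAt_id (0 : ℝ)).smul_const e₁
      rw [one_smul] at h1
      exact h1.prodMk (hasDerivAt_const _ _)
    have hpt0 : pt e₁ e 0 ζ = (0, ζ • e) := by simp [pt]
    have hd2 : HasDerivAt (fun s : ℝ => φ (pt e₁ e s ζ)) (fderiv ℝ φ (0, ζ • e) (e₁, 0)) 0 := by
      have h2 : HasFDerivAt φ (fderiv ℝ φ (0, ζ • e)) (pt e₁ e 0 ζ) := by
        rw [hpt0]; exact hdiff.hasFDerivAt
      exact h2.comp_hasDerivAt 0 hd1
    have hd3 : HasDerivAt (fun s : ℝ => h s ζ) (A ζ) 0 :=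
      ((c.comp (ContinuousLinearMap.fst ℝ X Z)).hasFDerivAt).comp_hasDerivAt 0 hd2
    have hpsi0 : Tendsto (fun s : ℝ => psi j s ζ) (𝓝[>] 0) (𝓝 0) := by
      have h1 : ContinuousAt (fun s : ℝ => psi j s ζ) 0 := by
        unfold psi
        have h4 : ContinuousAt (fun s : ℝ => eta (s ^ 2 + ζ ^ 2)) 0 := by
          refine ContinuousAt.comp (g := eta)
            (contDiffAt_eta (n := 0) (by positivity)).continuousAt ?_
          fun_prop
        exact ((continuousAt_const.mul h4).rexp).mul continuousAt_id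
      have h2 : psi j 0 ζ = 0 := by simp [psi]
      have h3 := h1.tendsto
      rw [h2] at h3
      exact h3.mono_left nhdsWithin_le_nhds
    have hev : ∀ᶠ s : ℝ in 𝓝[>] 0, 0 < s ∧ s < r := by
      have h1 : ∀ᶠ s : ℝ in 𝓝[>] 0, s < r :=
        (eventually_lt_nhds hr).filter_mono nhdsWithin_le_nhds
      filter_upwards [self_mem_nhdsWithin, h1] with s hs hs2
      exact ⟨hs, hs2⟩
    have hh0 : h 0 ζ = 0 := by
      have h1 : Tendsto (fun s : ℝ => h s ζ) (𝓝[>] 0) (𝓝 (h 0 ζ)) :=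
        hd3.continuousAt.tendsto.mono_left nhdsWithin_le_nhds
      have h2 : Tendsto (fun s : ℝ => h s ζ) (𝓝[>] 0) (𝓝 (aa ζ * 0)) := by
        refine (hpsi0.const_mul (aa ζ)).congr' ?_
        filter_upwards [hev] with s hs
        exact (hform s ζ hs.1 hs.2 hζ).symm
      rw [mul_zero] at h2
      exact tendsto_nhds_unique h1 h2
    have hslope : Tendsto (fun s : ℝ => h s ζ / s) (𝓝[>] 0) (𝓝 (A ζ)) := by
      have h1 := hd3.tendsto_slope_zero_right
      simp only [zero_add, hh0, sub_zero, smul_eq_mul] at h1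
      refine h1.congr fun s => ?_
      rw [div_eq_inv_mul]
    have hslope2 : Tendsto (fun s : ℝ => h s ζ / s) (𝓝[>] 0)
        (𝓝 (aa ζ * Real.exp (bb j ζ * eta (ζ ^ 2)))) := by
      have h4 : ContinuousAt (fun s : ℝ => aa ζ * Real.exp (bb j ζ * eta (s ^ 2 + ζ ^ 2))) 0 := by
        have h5 : ContinuousAt (fun s : ℝ => eta (s ^ 2 + ζ ^ 2)) 0 := by
          refine ContinuousAt.comp (g := eta)
            (contDiffAt_eta (n := 0) (by positivity)).continuousAt ?_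
          fun_prop
        exact continuousAt_const.mul ((continuousAt_const.mul h5).rexp)
      have h6 := h4.tendsto.mono_left (nhdsWithin_le_nhds (s := Ioi (0 : ℝ)))
      have h7 : (0 : ℝ) ^ 2 + ζ ^ 2 = ζ ^ 2 := by ring
      simp only [h7] at h6
      refine h6.congr' ?_
      filter_upwards [hev] with s hs
      rw [hform s ζ hs.1 hs.2 hζ]
      unfold psi
      have := hs.1
      field_simp
    exact tendsto_nhds_unique hslope hslope2
  -- (6) `aa 0 ≠ 0`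
  have haa0 : aa 0 ≠ 0 := by
    intro h0
    have habs0 : |(0 : ℝ)| < r := by simpa using hr
    have hh : ∀ s, 0 < s → s < r → h s 0 = 0 := by
      intro s hs hsr
      rw [hform s 0 hs hsr habs0, h0, zero_mul]
    -- `φ (pt s 0)` tends to zero as `s → 0`
    have hlim : Tendsto (fun s : ℝ => φ (pt e₁ e s 0)) (𝓝[>] 0) (𝓝 0) := by
      have h1 : ContinuousAt φ 0 :=
        hφcont.continuousAt (hU.mem_nhds (hVU (mem_of_mem_nhds hV)))
      have h2 : Tendsto (fun s : ℝ => pt e₁ e s 0) (𝓝 0) (𝓝 0) := by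
        have h3 : Continuous (fun s : ℝ => pt e₁ e s 0) := by unfold pt; fun_prop
        have h4 := h3.tendsto 0
        have h5 : pt e₁ e 0 0 = 0 := by simp [pt]
        rwa [h5] at h4
      have h6 := h1.tendsto.comp h2
      rw [hφ0] at h6
      exact h6.mono_left nhdsWithin_le_nhds
    have hzero : φ (pt e₁ e s₀ 0) = 0 := by
      have hx : (φ (pt e₁ e s₀ 0)).1 = 0 := by
        have h1 := F.small (φ (pt e₁ e s₀ 0)).1 ?_
        · have h2 : c (φ (pt e₁ e s₀ 0)).1 = 0 := hh s₀ hs₀pos hs₀r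
          rw [h1, h2, zero_smul]
        · intro ε hε
          have h2 : ∀ᶠ s : ℝ in 𝓝[>] 0, ‖φ (pt e₁ e s 0)‖ < ε := by
            have h3 := hlim.norm
            rw [norm_zero] at h3
            exact h3.eventually_lt_const hε
          have h4 : ∀ᶠ s : ℝ in 𝓝[>] 0, s ≤ s₀ :=
            (eventually_le_nhds hs₀pos).filter_mono nhdsWithin_le_nhds
          obtain ⟨s, hs1, hs2, hs3⟩ :=
            (h2.and (h4.and (self_mem_nhdsWithin : ∀ᶠ s : ℝ in 𝓝[>] 0, s ∈ Ioi (0 : ℝ)))).exists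
          obtain ⟨t, ht, h5, -⟩ := hrel s₀ s 0 hs3 hs2 hs₀r habs0
          refine ⟨t, ht, ?_⟩
          have h6 : a t (φ (pt e₁ e s₀ 0)).1 = (φ (pt e₁ e s 0)).1 := by rw [h5]
          rw [h6]
          exact (norm_fst_le _).trans hs1.le
      have hz : (φ (pt e₁ e s₀ 0)).2 = 0 := by
        have h1 : Tendsto (fun s : ℝ => (φ (pt e₁ e s 0)).2) (𝓝[>] 0) (𝓝 (0 : X × Z).2) :=
          (continuous_snd.tendsto _).comp hlim
        have h2 : Tendsto (fun s : ℝ => (φ (pt e₁ e s 0)).2) (𝓝[>] 0)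
            (𝓝 (φ (pt e₁ e s₀ 0)).2) := by
          refine tendsto_const_nhds.congr' ?_
          have h4 : ∀ᶠ s : ℝ in 𝓝[>] 0, s ≤ s₀ :=
            (eventually_le_nhds hs₀pos).filter_mono nhdsWithin_le_nhds
          filter_upwards [h4, self_mem_nhdsWithin] with s hs2 hs3
          obtain ⟨t, ht, h5, -⟩ := hrel s₀ s 0 hs3 hs2 hs₀r habs0
          rw [h5]
        exact tendsto_nhds_unique h2 h1
      exact Prod.ext hx hz
    have hmem0 : (0 : X × Z) ∈ U := hVU (mem_of_mem_nhds hV)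
    have hmem1 : pt e₁ e s₀ 0 ∈ U := hmapsU 0 ⟨by linarith, hr⟩
    have h7 := hinj hmem1 hmem0 (by rw [hzero, hφ0])
    have h8 : ‖pt e₁ e s₀ 0‖ = s₀ := by
      rw [norm_pt F.norm_e he, abs_zero, abs_of_pos hs₀pos, max_eq_left hs₀pos.le]
    rw [h7, norm_zero] at h8
    linarith
  -- (7) conclusion
  have haac : ContinuousAt aa 0 :=
    (haacd.continuousOn).continuousAt (Ioo_mem_nhds (by linarith) hr)
  obtain ⟨δ, hδ, hδ'⟩ := Metric.eventually_nhds_iff_ball.1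
    (haac.eventually_ne haa0)
  set ρ := min δ r with hρ
  have hρpos : 0 < ρ := lt_min hδ hr
  set J : Set ℝ := Ioo (-ρ) ρ with hJ
  have hJI : J ⊆ I := by
    intro x hx
    exact ⟨by linarith [hx.1, min_le_right δ r], by linarith [hx.2, min_le_right δ r]⟩
  have hJne : ∀ x ∈ J, aa x ≠ 0 := by
    intro x hx
    apply hδ'
    rw [Metric.mem_ball, dist_zero_right, Real.norm_eq_abs, abs_lt]
    exact ⟨by linarith [hx.1, min_le_left δ r], by linarith [hx.2, min_le_left δ r]⟩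
  have hu : ContDiffOn ℝ j (fun ζ => A ζ / aa ζ - 1) J :=
    ((hAcd.mono hJI).div (haacd.mono hJI) hJne).sub contDiffOn_const
  refine no_contDiffOn (convex_Ioo _ _) ⟨by linarith, hρpos⟩
    (Ioo_mem_nhds (by linarith) hρpos) hu ?_
  have hevJ : ∀ᶠ t : ℝ in 𝓝[>] 0, t ∈ J :=
    mem_nhdsWithin_of_mem_nhds (Ioo_mem_nhds (by linarith) hρpos)
  filter_upwards [hevJ, self_mem_nhdsWithin] with t ht ht0
  have ht0' : (0 : ℝ) < t := ht0
  have h1 := hA_eq t (hIabs t (hJI ht)) ht0'.ne'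
  have h2 := hJne t ht
  rw [h1, mul_div_assoc, mul_comm, div_mul_cancel₀ _ h2]

end Pool.Agent.Lib.MP_4f3c81_gt
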