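import Pool.Agent.Lib.MP_4f3c81_gt.NonLin

/-!
# The special linear group and the one parameter group
-/

open Filter Topology Asymptotics Set Matrix
open scoped ContDiff

namespace Pool.Agent.Lib.MP_4f3c81_gt

/-- the linear map of a matrix -/
noncomputable def TM {n : ℕ} (M : Matrix (Fin n) (Fin n) ℝ) :
    EuclideanSpace ℝ (Fin n) →L[ℝ] EuclideanSpace ℝ (Fin n) :=
  Matrix.toEuclideanCLM (n := Fin n) (𝕜 := ℝ) M

theorem TM_one {n : ℕ} : TM (1 : Matrix (Fin n) (Fin n) ℝ) = ContinuousLinearMap.id ℝ _ := by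
  unfold TM
  rw [map_one]
  rfl

theorem TM_mul {n : ℕ} (M M' : Matrix (Fin n) (Fin n) ℝ) : TM (M * M') = (TM M).comp (TM M') := by
  unfold TM
  rw [map_mul]
  rfl

theorem TM_apply {n : ℕ} (M : Matrix (Fin n) (Fin n) ℝ) (x : EuclideanSpace ℝ (Fin n))
    (i : Fin n) : TM M x i = (M *ᵥ (WithLp.ofLp x)) i := rfl

/-- `TM` as a linear map on functions of two variables. -/
noncomputable def TMl (n : ℕ) : (Fin n → Fin n → ℝ) →ₗ[ℝ]
    (EuclideanSpace ℝ (Fin n) →L[ℝ] EuclideanSpace ℝ (Fin n)) where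
  toFun M := TM (Matrix.of M)
  map_add' M M' := by
    unfold TM
    exact map_add (Matrix.toEuclideanCLM (n := Fin n) (𝕜 := ℝ)) (Matrix.of M) (Matrix.of M')
  map_smul' c M := by
    unfold TM
    exact map_smul (Matrix.toEuclideanCLM (n := Fin n) (𝕜 := ℝ)) c (Matrix.of M)

/-- `TM` as a continuous linear map on functions of two variables. -/
noncomputable def TMc (n : ℕ) : (Fin n → Fin n → ℝ) →L[ℝ]
    (EuclideanSpace ℝ (Fin n) →L[ℝ] EuclideanSpace ℝ (Fin n)) :=
  LinearMap.toContinuousLinearMap (TMl n)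

theorem TMc_apply {n : ℕ} (M : Fin n → Fin n → ℝ) : TMc n M = TM (Matrix.of M) := rfl

theorem TM_mem_Inj {n : ℕ} {M M' : Matrix (Fin n) (Fin n) ℝ} (h : M' * M = 1) :
    TM M ∈ Inj (EuclideanSpace ℝ (Fin n)) := by
  refine ⟨(‖TM M'‖ + 1)⁻¹, by positivity, fun x => ?_⟩
  have h1 : TM M' (TM M x) = x := by
    have : ((TM M').comp (TM M)) x = x := by rw [← TM_mul, h, TM_one]; rfl
    exact this
  have h2 : ‖x‖ ≤ ‖TM M'‖ * ‖TM M x‖ := by
    conv_lhs => rw [← h1]
    exact (TM M').le_opNorm _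
  rw [inv_mul_le_iff₀ (by positivity)]
  have := norm_nonneg (TM M x)
  linarith

theorem TM_mem_Inj_of_det {n : ℕ} {M : Matrix (Fin n) (Fin n) ℝ} (h : M.det ≠ 0) :
    TM M ∈ Inj (EuclideanSpace ℝ (Fin n)) :=
  TM_mem_Inj (M' := M⁻¹) (Matrix.nonsing_inv_mul M (isUnit_iff_ne_zero.2 h))

/-- diagonal entries -/
noncomputable def dv (n : ℕ) (t : ℝ) : Fin (n + 2) → ℝ :=
  Fin.cons (Real.exp (-t)) (Fin.cons (Real.exp t) (fun _ => 1))

/-- one parameter group in `SL`. -/
noncomputable def dSL (n : ℕ) (t : ℝ) : SpecialLinearGroup (Fin (n + 2)) ℝ :=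
  ⟨Matrix.diagonal (dv n t), by
    rw [Matrix.det_diagonal, Fin.prod_univ_succ, Fin.prod_univ_succ]
    simp only [dv, Fin.cons_zero, Fin.cons_succ, Finset.prod_const_one, mul_one]
    rw [← Real.exp_add]; simp⟩

theorem dSL_add (n : ℕ) (s t : ℝ) : dSL n (s + t) = dSL n s * dSL n t := by
  apply Subtype.ext
  change Matrix.diagonal (dv n (s + t)) = Matrix.diagonal (dv n s) * Matrix.diagonal (dv n t)
  rw [Matrix.diagonal_mul_diagonal]
  congr 1
  funext i
  unfold dv
  refine Fin.cases ?_ (fun i => ?_) i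
  · simp only [Fin.cons_zero]
    rw [← Real.exp_add]; congr 1; ring
  · refine Fin.cases ?_ (fun i => ?_) i
    · simp only [Fin.cons_zero, Fin.cons_succ]
      rw [← Real.exp_add]
    · simp only [Fin.cons_succ, mul_one]

theorem dSL_zero (n : ℕ) : dSL n 0 = 1 := by
  apply Subtype.ext
  change Matrix.diagonal (dv n 0) = 1
  rw [← Matrix.diagonal_one]
  congr 1
  funext i
  unfold dv
  refine Fin.cases ?_ (fun i => ?_) i
  · simp
  · refine Fin.cases ?_ (fun i => ?_) i
    · simp
    · simp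

theorem continuous_dSL (n : ℕ) : Continuous (dSL n) := by
  refine Continuous.subtype_mk ?_ _
  refine Continuous.matrix_diagonal ?_
  refine continuous_pi fun i => ?_
  unfold dv
  refine Fin.cases ?_ (fun i => ?_) i
  · simp only [Fin.cons_zero]; fun_prop
  · refine Fin.cases ?_ (fun i => ?_) i
    · simp only [Fin.cons_zero, Fin.cons_succ]; fun_prop
    · simp only [Fin.cons_succ]; fun_prop

theorem flow_dSL (n : ℕ) :
    Flow (fun t => TM (dSL n t : Matrix (Fin (n + 2)) (Fin (n + 2)) ℝ))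
      (EuclideanSpace.proj (0 : Fin (n + 2)) : EuclideanSpace ℝ (Fin (n + 2)) →L[ℝ] ℝ)
      (EuclideanSpace.single (0 : Fin (n + 2)) (1 : ℝ)) := by
  have hentry : ∀ (t : ℝ) (x : EuclideanSpace ℝ (Fin (n + 2))) (i : Fin (n + 2)),
      TM (dSL n t : Matrix (Fin (n + 2)) (Fin (n + 2)) ℝ) x i = dv n t i * x i := by
    intro t x i
    rw [TM_apply]
    exact Matrix.mulVec_diagonal _ _ _
  refine ⟨?_, ?_, ?_, ?_, ?_, ?_, ?_, ?_⟩
  · simp
  · intro t
    refine TM_mem_Inj (M' := (dSL n (-t) : Matrix (Fin (n + 2)) (Fin (n + 2)) ℝ)) ?_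
    have : dSL n (-t) * dSL n t = 1 := by rw [← dSL_add]; simp [dSL_zero]
    exact congrArg Subtype.val this
  · rw [dSL_zero]
    exact TM_one
  · intro s t
    rw [dSL_add]
    exact TM_mul _ _
  · intro t
    ext i
    rw [hentry]
    by_cases h : i = 0
    · subst h
      simp [dv]
    · simp [h]
  · simp
  · intro t x
    change TM (dSL n t : Matrix (Fin (n + 2)) (Fin (n + 2)) ℝ) x 0 = Real.exp (-t) * x 0
    rw [hentry]
    simp [dv]
  · intro x hx
    ext i
    by_cases h : i = 0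
    · subst h
      simp
    · have h1 : x i = 0 := by
        by_contra hne
        have hpos : 0 < |x i| := abs_pos.2 hne
        obtain ⟨t, ht, h2⟩ := hx (|x i| / 2) (by positivity)
        have h3 : |TM (dSL n t : Matrix (Fin (n + 2)) (Fin (n + 2)) ℝ) x i| ≤ |x i| / 2 := by
          refine le_trans ?_ h2
          exact PiLp.norm_apply_le
            (TM (dSL n t : Matrix (Fin (n + 2)) (Fin (n + 2)) ℝ) x) i
        rw [hentry, abs_mul] at h3
        have h4 : 1 ≤ |dv n t i| := by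
          unfold dv
          revert h
          refine Fin.cases (fun h => absurd rfl h) (fun i _ => ?_) i
          rw [Fin.cons_succ]
          refine Fin.cases ?_ (fun i => ?_) i
          · rw [Fin.cons_zero, Real.abs_exp]
            exact Real.one_le_exp ht
          · simp
        nlinarith
      rw [h1]
      simp [h]

end Pool.Agent.Lib.MP_4f3c81_gt
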