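import Pool.Agent.Lib.MP_4f3c81_gt.Core

/-!
# Smoothness of the exponent away from the singular set
-/

open Filter Topology Asymptotics Set
open scoped ContDiff

namespace Pool.Agent.Lib.MP_4f3c81_gt

variable {X Z : Type} [NormedAddCommGroup X] [InnerProductSpace ℝ X]
  [NormedAddCommGroup Z] [InnerProductSpace ℝ Z]

theorem contDiff_bet (lam : Z →L[ℝ] ℝ) (j : ℕ) : ContDiff ℝ ∞ (bet lam j) := by
  unfold bet
  refine contDiff_const.mul (ContDiff.pow ?_ j)
  refine lam.contDiff.mul (ContDiff.inv ?_ ?_)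
  · exact contDiff_const.add (lam.contDiff.mul lam.contDiff)
  · intro z
    have := mul_self_nonneg (lam z)
    positivity

theorem contDiff_fM : ContDiff ℝ ∞ (fM : QQ X Z → ℝ) := by
  unfold fM
  refine ContDiff.norm_sq ℝ ?_
  exact contDiff_fst.clm_apply (contDiff_fst.comp contDiff_snd)

theorem contDiff_fW : ContDiff ℝ ∞ (fW : QQ X Z → ℝ) := by
  unfold fW
  exact ContDiff.norm_sq ℝ (contDiff_snd.comp contDiff_snd)

theorem contDiff_fR : ContDiff ℝ ∞ (fR : QQ X Z → ℝ) := by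
  unfold fR
  exact (ContDiff.norm_sq ℝ (contDiff_fst.comp contDiff_snd)).add
    (ContDiff.norm_sq ℝ (contDiff_snd.comp contDiff_snd))

theorem contDiff_fb (lam : Z →L[ℝ] ℝ) (j : ℕ) : ContDiff ℝ ∞ (fb lam j : QQ X Z → ℝ) := by
  unfold fb
  exact (contDiff_bet lam j).comp (contDiff_snd.comp contDiff_snd)

/-- coefficient of the derivative of `eta`. -/
noncomputable def de (r : ℝ) : ℝ := -(r⁻¹ * (1 + r)⁻¹ * (Lg r)⁻¹)

theorem abs_de_mul_le {r m : ℝ} (hr : 0 < r) (hm : 0 ≤ m) (hmr : m ≤ r) : |de r * m| ≤ 1 := by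
  have hL := one_le_Lg hr
  have h1 : (Lg r)⁻¹ ≤ 1 := inv_le_one_of_one_le₀ hL
  have h2 : (1 + r)⁻¹ ≤ 1 := inv_le_one_of_one_le₀ (by linarith)
  have h3 : r⁻¹ * m ≤ 1 := by
    rw [inv_mul_le_iff₀ hr]; linarith
  have h4 : 0 < (Lg r)⁻¹ := inv_pos.2 (Lg_pos hr)
  have h5 : 0 < (1 + r)⁻¹ := inv_pos.2 (by linarith)
  have h6 : 0 ≤ r⁻¹ * m := by positivity
  unfold de
  have h7 : |-(r⁻¹ * (1 + r)⁻¹ * (Lg r)⁻¹) * m| = (r⁻¹ * m) * ((1 + r)⁻¹ * (Lg r)⁻¹) := by
    rw [neg_mul, abs_neg, abs_of_nonneg (by positivity)]; ring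
  rw [h7]
  have h8 : (1 + r)⁻¹ * (Lg r)⁻¹ ≤ 1 := by nlinarith
  have h9 : 0 ≤ (1 + r)⁻¹ * (Lg r)⁻¹ := by positivity
  nlinarith

/-- derivative in the unknown of the defining equation. -/
theorem hasDerivAt_eq {b M W : ℝ} (hM : 0 ≤ M) (hW : 0 ≤ W) (hMW : 0 < M + W) (c s : ℝ) :
    HasDerivAt (fun s => s - eta (Real.exp (-2 * b * s) * M + W) + c)
      (1 + 2 * b * (de (Real.exp (-2 * b * s) * M + W) * (Real.exp (-2 * b * s) * M))) s := by
  have h1 : HasDerivAt (fun s : ℝ => Real.exp (-2 * b * s) * M + W)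
      (Real.exp (-2 * b * s) * (-2 * b) * M) s := by
    have h0 : HasDerivAt (fun s : ℝ => -2 * b * s) (-2 * b) s := by
      simpa using (hasDerivAt_id s).const_mul (-2 * b)
    exact (h0.exp.mul_const M).add_const W
  have h2 := (hasDerivAt_eta (expMW_pos (s := -2 * b * s) hM hW hMW)).comp s h1
  have h3 := ((hasDerivAt_id s).sub h2).add_const c
  refine h3.congr_deriv ?_
  unfold de
  ring

theorem deriv_eq_pos {b M W : ℝ} (hb : |b| ≤ 1 / 4) (hM : 0 ≤ M) (hW : 0 ≤ W) (hMW : 0 < M + W)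
    (s : ℝ) :
    1 / 2 ≤ 1 + 2 * b * (de (Real.exp (-2 * b * s) * M + W) * (Real.exp (-2 * b * s) * M)) := by
  have hm : 0 ≤ Real.exp (-2 * b * s) * M := by positivity
  have h1 := abs_de_mul_le (expMW_pos (s := -2 * b * s) hM hW hMW) hm (by linarith)
  set y := de (Real.exp (-2 * b * s) * M + W) * (Real.exp (-2 * b * s) * M)
  have h2 : |2 * b * y| ≤ 1 / 2 := by
    rw [abs_mul, abs_mul, abs_two]
    have := abs_nonneg y
    have := abs_nonneg b
    nlinarith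
  have := (abs_le.1 h2).1
  linarith

theorem isInvertible_real {A : ℝ →L[ℝ] ℝ} (hA : A 1 ≠ 0) : A.IsInvertible := by
  refine ContinuousLinearMap.IsInvertible.of_inverse
    (g := (A 1)⁻¹ • ContinuousLinearMap.id ℝ ℝ) ?_ ?_
  · ext
    simp [hA]
  · ext
    simp [hA]

theorem contDiffAt_Del [CompleteSpace X] [CompleteSpace Z] (lam : Z →L[ℝ] ℝ) (j : ℕ)
    {q : QQ X Z} (hT : q.1 ∈ Inj X) (hq : q.2 ≠ 0) : ContDiffAt ℝ ∞ (Del lam j) q := by
  set f : QQ X Z × ℝ → ℝ := fun p =>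
    p.2 - eta (Real.exp (-2 * fb lam j p.1 * p.2) * fM p.1 + fW p.1) + eta (fR p.1) with hf
  have hcd : ContDiffAt ℝ ∞ f (q, Del lam j q) := by
    have hpos : 0 < Real.exp (-2 * fb lam j q * Del lam j q) * fM q + fW q :=
      expMW_pos (fM_nonneg q) (fW_nonneg q) (fM_add_fW_pos hT hq)
    have h1 : ContDiffAt ℝ ∞ (fun p : QQ X Z × ℝ => fb lam j p.1) (q, Del lam j q) :=
      ((contDiff_fb lam j).comp contDiff_fst).contDiffAt
    have h2 : ContDiffAt ℝ ∞ (fun p : QQ X Z × ℝ => fM p.1) (q, Del lam j q) :=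
      (contDiff_fM.comp contDiff_fst).contDiffAt
    have h3 : ContDiffAt ℝ ∞ (fun p : QQ X Z × ℝ => fW p.1) (q, Del lam j q) :=
      (contDiff_fW.comp contDiff_fst).contDiffAt
    have h4 : ContDiffAt ℝ ∞ (fun p : QQ X Z × ℝ => fR p.1) (q, Del lam j q) :=
      (contDiff_fR.comp contDiff_fst).contDiffAt
    have h5 : ContDiffAt ℝ ∞ (fun p : QQ X Z × ℝ => p.2) (q, Del lam j q) :=
      contDiff_snd.contDiffAt
    have h6 : ContDiffAt ℝ ∞ (fun p : QQ X Z × ℝ =>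
        Real.exp (-2 * fb lam j p.1 * p.2) * fM p.1 + fW p.1) (q, Del lam j q) :=
      (((contDiffAt_const.mul h1).mul h5).exp.mul h2).add h3
    have h7 : ContDiffAt ℝ ∞ (fun p : QQ X Z × ℝ =>
        eta (Real.exp (-2 * fb lam j p.1 * p.2) * fM p.1 + fW p.1)) (q, Del lam j q) :=
      ContDiffAt.comp (g := eta) (q, Del lam j q) (contDiffAt_eta hpos) h6
    have h8 : ContDiffAt ℝ ∞ (fun p : QQ X Z × ℝ => eta (fR p.1)) (q, Del lam j q) :=
      ContDiffAt.comp (g := eta) (q, Del lam j q) (contDiffAt_eta (fR_pos hq)) h4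
    exact (h5.sub h7).add h8
  have pn : (∞ : WithTop ℕ∞) ≠ 0 := by simp
  have hinv : (fderiv ℝ f (q, Del lam j q) ∘L .inr ℝ (QQ X Z) ℝ).IsInvertible := by
    apply isInvertible_real
    have hd : DifferentiableAt ℝ f (q, Del lam j q) := hcd.differentiableAt pn
    have h1 : HasDerivAt (fun s : ℝ => ((q, s) : QQ X Z × ℝ)) ((0 : QQ X Z), (1 : ℝ))
        (Del lam j q) := (hasDerivAt_const _ q).prodMk (hasDerivAt_id _)
    have h2 := (hd.hasFDerivAt).comp_hasDerivAt (Del lam j q) h1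
    have h3 := hasDerivAt_eq (b := fb lam j q) (fM_nonneg q) (fW_nonneg q)
      (fM_add_fW_pos hT hq) (eta (fR q)) (Del lam j q)
    have h4 := h2.unique h3
    have h5 : (fderiv ℝ f (q, Del lam j q) ∘L .inr ℝ (QQ X Z) ℝ) 1
        = fderiv ℝ f (q, Del lam j q) ((0 : QQ X Z), (1 : ℝ)) := rfl
    rw [h5, h4]
    have := deriv_eq_pos (abs_bet_le lam j q.2.2) (fM_nonneg q) (fW_nonneg q)
      (fM_add_fW_pos hT hq) (Del lam j q)
    intro h
    unfold fb at h
    linarith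
  have hψ := hcd.contDiffAt_implicitFunction pn hinv
  have hev := hcd.eventually_apply_implicitFunction pn hinv
  refine hψ.congr_of_eventuallyEq ?_
  have hopen : ∀ᶠ q' : QQ X Z in 𝓝 q, q'.1 ∈ Inj X ∧ q'.2 ≠ 0 := by
    have h1 : IsOpen {q' : QQ X Z | q'.1 ∈ Inj X} := isOpen_Inj.preimage continuous_fst
    have h2 : IsOpen {q' : QQ X Z | q'.2 ≠ 0} := isOpen_ne.preimage continuous_snd
    exact (h1.inter h2).mem_nhds ⟨hT, hq⟩
  have hf0 : f (q, Del lam j q) = 0 := by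
    have := Del_spec lam j hT hq
    simp only [hf]
    unfold fS at this
    linarith
  filter_upwards [hev, hopen] with q' h1 h2
  rw [hf0] at h1
  symm
  apply sol_unique (abs_bet_le lam j q'.2.2) (fM_nonneg q') (fW_nonneg q')
    (fM_add_fW_pos h2.1 h2.2)
  have h3 : hcd.implicitFunction pn hinv q' - eta (Real.exp (-2 * bet lam j q'.2.2 *
      hcd.implicitFunction pn hinv q') * fM q' + fW q') + eta (fR q') = 0 := h1
  linarith

end Pool.Agent.Lib.MP_4f3c81_gt
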