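import Pool.Agent.Lib.MP_4f3c81_gt.SL

/-!
# Transfer along a linear isomorphism
-/

open Filter Topology Asymptotics Set
open scoped ContDiff

namespace Pool.Agent.Lib.MP_4f3c81_gt

variable {X Z E : Type} [NormedAddCommGroup X] [InnerProductSpace ℝ X]
  [NormedAddCommGroup Z] [InnerProductSpace ℝ Z] [NormedAddCommGroup E] [NormedSpace ℝ E]
  [CompleteSpace X] [CompleteSpace Z]
  (lam : Z →L[ℝ] ℝ) (j : ℕ) (L : E ≃L[ℝ] X × Z)

/-- the transferred action -/
noncomputable def tact (T : X →L[ℝ] X) (x : E) : E := L.symm (act lam j (T, L x))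

theorem contDiffOn_tact : ContDiffOn ℝ ((j + 1 : ℕ) : WithTop ℕ∞)
    (fun q : (X →L[ℝ] X) × E => tact lam j L q.1 q.2) {q | q.1 ∈ Inj X} := by
  have h1 : ContDiffOn ℝ ((j + 1 : ℕ) : WithTop ℕ∞)
      (fun q : (X →L[ℝ] X) × E => act lam j (q.1, L q.2)) {q | q.1 ∈ Inj X} := by
    refine (contDiffOn_act lam j).comp ?_ ?_
    · exact (contDiff_fst.prodMk (L.contDiff.comp contDiff_snd)).contDiffOn
    · intro q hq
      exact hq
  exact L.symm.contDiff.comp_contDiffOn h1

omit [CompleteSpace X] [CompleteSpace Z] in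
theorem tact_id (x : E) : tact lam j L (ContinuousLinearMap.id ℝ X) x = x := by
  unfold tact
  rw [act_id, ContinuousLinearEquiv.symm_apply_apply]

omit [CompleteSpace X] [CompleteSpace Z] in
theorem tact_comp {S T : X →L[ℝ] X} (hS : S ∈ Inj X) (hT : T ∈ Inj X) (x : E) :
    tact lam j L (S.comp T) x = tact lam j L S (tact lam j L T x) := by
  unfold tact
  rw [act_comp lam j hS hT, ContinuousLinearEquiv.apply_symm_apply]

omit [CompleteSpace X] [CompleteSpace Z] in
theorem tact_zero (T : X →L[ℝ] X) : tact lam j L T 0 = 0 := by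
  unfold tact
  rw [map_zero, act_zero, map_zero]

theorem fderiv_tact {T : X →L[ℝ] X} (hT : T ∈ Inj X) (v : E) :
    fderiv ℝ (tact lam j L T) 0 v = L.symm (T (L v).1, (L v).2) := by
  have h1 := hasFDerivAt_act lam j hT
  have hL0 : L 0 = 0 := map_zero L
  have h2 : HasFDerivAt (fun p : X × Z => act lam j (T, p))
      (T.prodMap (ContinuousLinearMap.id ℝ Z)) (L 0) := by
    rw [hL0]; exact h1
  have h3 := h2.comp (0 : E) L.hasFDerivAt
  have h4 := (L.symm.hasFDerivAt.comp (0 : E) h3)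
  have h5 : fderiv ℝ (tact lam j L T) 0 = _ := h4.fderiv
  rw [h5]
  rfl

theorem not_lin_tact {a : ℝ → X →L[ℝ] X} {c : X →L[ℝ] ℝ} {e₁ : X} {e : Z} (F : Flow a c e₁)
    (he : ‖e‖ = 1) (hlam : lam e = 1) {U V : Set E} (hU : IsOpen U) (hV : IsOpen V)
    (h0V : (0 : E) ∈ V) (hVU : V ⊆ U) {φ : E → E}
    (hφ : ContDiffOn ℝ ((j + 1 : ℕ) : WithTop ℕ∞) φ U) (hinj : InjOn φ U) (hφ0 : φ 0 = 0)
    (heq : ∀ᶠ τ in 𝓝 (0 : ℝ), ∀ x ∈ V,
      φ (tact lam j L (a τ) x) = fderiv ℝ (tact lam j L (a τ)) 0 (φ x)) : False := by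
  obtain ⟨τ₁, hτ₁, hτ₁'⟩ := Metric.eventually_nhds_iff_ball.1 heq
  refine not_linearizable_aux lam j F he hlam
    (U := L.symm ⁻¹' U) (V := L.symm ⁻¹' V)
    (hU.preimage L.symm.continuous) ?_ (preimage_mono hVU)
    (φ := fun p => L (φ (L.symm p))) ?_ ?_ ?_ (τ₀ := τ₁ / 2) (by positivity) ?_
  · exact (hV.preimage L.symm.continuous).mem_nhds (by
      change L.symm 0 ∈ V
      rw [map_zero]; exact h0V)
  · exact L.contDiff.comp_contDiffOn
      (hφ.comp L.symm.contDiff.contDiffOn (fun p hp => hp))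
  · intro p hp p' hp' h
    have h1 : φ (L.symm p) = φ (L.symm p') := L.injective h
    exact L.symm.injective (hinj hp hp' h1)
  · simp only [map_zero, hφ0]
  · intro τ hτ hττ p hp
    have h1 := hτ₁' τ (by
      rw [Metric.mem_ball, dist_zero_right, Real.norm_eq_abs, abs_of_nonneg hτ]
      linarith) (L.symm p) hp
    rw [fderiv_tact lam j L (F.inj τ)] at h1
    unfold tact at h1
    rw [ContinuousLinearEquiv.apply_symm_apply] at h1
    simp only [h1, ContinuousLinearEquiv.apply_symm_apply]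

end Pool.Agent.Lib.MP_4f3c81_gt
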