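import Mathlib

/-!
# Weighted classes of functions near a singular set

For a filter `l` of the form `𝓝[Ω] q₀` and a gauge `ν`, `Cls l ν N f w` says that `f = O(w)`,
`D f = O(w / ν)`, ..., `D^N f = O(w / ν ^ N)` along `l`.
-/

open Filter Topology Asymptotics Set

namespace Pool.Agent.Lib.MP_4f3c81_gt

/-- `Cls l ν N f w`: along `l`, `f` and its derivatives up to order `N` are controlled by
`w, w / ν, w / ν ^ 2, ...`. -/
def Cls {Q : Type} [NormedAddCommGroup Q] [NormedSpace ℝ Q] (l : Filter Q) (ν : Q → ℝ) :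
    ℕ → ∀ {F : Type} [NormedAddCommGroup F] [NormedSpace ℝ F], (Q → F) → (Q → ℝ) → Prop
  | 0, _, _, _, f, w => f =O[l] w
  | N + 1, _, _, _, f, w => f =O[l] w ∧ (∀ᶠ q in l, DifferentiableAt ℝ f q) ∧
      Cls l ν N (fun q => fderiv ℝ f q) (fun q => w q / ν q)

section

variable {Q : Type} [NormedAddCommGroup Q] [NormedSpace ℝ Q]
  {F G H : Type} [NormedAddCommGroup F] [NormedSpace ℝ F]
  [NormedAddCommGroup G] [NormedSpace ℝ G] [NormedAddCommGroup H] [NormedSpace ℝ H]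
  {l : Filter Q} {ν : Q → ℝ} {N : ℕ}

theorem Cls.isBigO {f : Q → F} {w : Q → ℝ} (h : Cls l ν N f w) : f =O[l] w := by
  cases N with
  | zero => exact h
  | succ N => exact h.1

theorem Cls.diff {f : Q → F} {w : Q → ℝ} (h : Cls l ν (N + 1) f w) :
    ∀ᶠ q in l, DifferentiableAt ℝ f q := h.2.1

theorem Cls.deriv {f : Q → F} {w : Q → ℝ} (h : Cls l ν (N + 1) f w) :
    Cls l ν N (fun q => fderiv ℝ f q) (fun q => w q / ν q) := h.2.2

theorem Cls.mono_w {f : Q → F} {w w' : Q → ℝ} (h : Cls l ν N f w) (hw : w =O[l] w') :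
    Cls l ν N f w' := by
  induction N generalizing F w w' with
  | zero => exact IsBigO.trans h hw
  | succ N ih =>
    refine ⟨h.1.trans hw, h.2.1, ih h.2.2 ?_⟩
    simp only [div_eq_mul_inv]
    exact hw.mul (isBigO_refl _ _)

theorem Cls.of_succ {f : Q → F} {w : Q → ℝ} (h : Cls l ν (N + 1) f w) : Cls l ν N f w := by
  induction N generalizing F w with
  | zero => exact h.1
  | succ N ih => exact ⟨h.1, h.2.1, ih h.2.2⟩

theorem Cls.of_le {f : Q → F} {w : Q → ℝ} {M : ℕ} (h : Cls l ν N f w) (hM : M ≤ N) :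
    Cls l ν M f w := by
  induction N with
  | zero => obtain rfl : M = 0 := by omega
            exact h
  | succ N ih =>
    rcases Nat.lt_or_ge N M with h1 | h1
    · obtain rfl : M = N + 1 := by omega
      exact h
    · exact ih h.of_succ h1

theorem eventually_eventuallyEq_nhds {α : Type*} {Ω : Set Q} (hΩ : IsOpen Ω) {q₀ : Q} {f g : Q → α}
    (h : f =ᶠ[𝓝[Ω] q₀] g) : ∀ᶠ q in 𝓝[Ω] q₀, f =ᶠ[𝓝 q] g := by
  have h1 := eventually_eventually_nhdsWithin.2 h
  filter_upwards [h1, self_mem_nhdsWithin] with q hq hqΩ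
  rwa [hΩ.nhdsWithin_eq hqΩ] at hq

theorem Cls.congr {Ω : Set Q} (hΩ : IsOpen Ω) {q₀ : Q} {f g : Q → F} {w : Q → ℝ}
    (h : Cls (𝓝[Ω] q₀) ν N f w) (hfg : f =ᶠ[𝓝[Ω] q₀] g) : Cls (𝓝[Ω] q₀) ν N g w := by
  induction N generalizing F w with
  | zero => exact IsBigO.congr' h hfg EventuallyEq.rfl
  | succ N ih =>
    have h2 := eventually_eventuallyEq_nhds hΩ hfg
    refine ⟨h.1.congr' hfg EventuallyEq.rfl, ?_, ih h.2.2 ?_⟩
    · filter_upwards [h.2.1, h2] with q hq hq2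
      exact hq2.differentiableAt_iff.1 hq
    · filter_upwards [h2] with q hq
      exact hq.fderiv_eq

theorem Cls.zero (w : Q → ℝ) : Cls l ν N (fun _ => (0 : F)) w := by
  induction N generalizing F w with
  | zero => exact isBigO_zero _ _
  | succ N ih =>
    refine ⟨isBigO_zero _ _, Eventually.of_forall fun q => differentiableAt_const _, ?_⟩
    have : (fun q : Q => fderiv ℝ (fun _ : Q => (0 : F)) q) = fun _ => 0 := by
      ext1 q; simp
    rw [this]
    exact ih _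

theorem Cls.const (c : F) {w : Q → ℝ} (hw : (fun _ => (1 : ℝ)) =O[l] w) :
    Cls l ν N (fun _ => c) w := by
  have h0 : (fun _ : Q => c) =O[l] w := (isBigO_const_const c (one_ne_zero) l).trans hw
  cases N with
  | zero => exact h0
  | succ N =>
    refine ⟨h0, Eventually.of_forall fun q => differentiableAt_const _, ?_⟩
    have : (fun q : Q => fderiv ℝ (fun _ : Q => c) q) = fun _ => 0 := by
      ext1 q; simp
    rw [this]
    exact Cls.zero _

theorem Cls.clm (A : Q →L[ℝ] F) {w : Q → ℝ} (h0 : (fun q => A q) =O[l] w)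
    (h1 : (fun _ => (1 : ℝ)) =O[l] (fun q => w q / ν q)) : Cls l ν N (fun q => A q) w := by
  cases N with
  | zero => exact h0
  | succ N =>
    refine ⟨h0, Eventually.of_forall fun q => A.differentiableAt, ?_⟩
    have : (fun q : Q => fderiv ℝ (fun q => A q) q) = fun _ => A := by
      ext1 q; exact A.fderiv
    rw [this]
    exact Cls.const _ h1

theorem Cls.comp_clm (A : F →L[ℝ] G) {f : Q → F} {w : Q → ℝ}
    {Ω : Set Q} (hΩ : IsOpen Ω) {q₀ : Q} (h : Cls (𝓝[Ω] q₀) ν N f w) :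
    Cls (𝓝[Ω] q₀) ν N (fun q => A (f q)) w := by
  induction N generalizing F G w with
  | zero => exact (A.isBigO_comp f _).trans h
  | succ N ih =>
    refine ⟨(A.isBigO_comp f _).trans h.1, ?_, ?_⟩
    · filter_upwards [h.2.1] with q hq
      exact A.differentiableAt.comp q hq
    · have h3 := ih (ContinuousLinearMap.compL ℝ Q F G A) h.2.2
      refine h3.congr hΩ ?_
      filter_upwards [h.2.1] with q hq
      have : fderiv ℝ (fun q => A (f q)) q = A.comp (fderiv ℝ f q) :=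
        (A.hasFDerivAt.comp q hq.hasFDerivAt).fderiv
      rw [this]
      rfl

theorem Cls.add {Ω : Set Q} (hΩ : IsOpen Ω) {q₀ : Q} {f g : Q → F} {w : Q → ℝ}
    (hf : Cls (𝓝[Ω] q₀) ν N f w) (hg : Cls (𝓝[Ω] q₀) ν N g w) :
    Cls (𝓝[Ω] q₀) ν N (fun q => f q + g q) w := by
  induction N generalizing F w with
  | zero => exact IsBigO.add hf hg
  | succ N ih =>
    refine ⟨hf.1.add hg.1, ?_, ?_⟩
    · filter_upwards [hf.2.1, hg.2.1] with q h1 h2
      exact h1.add h2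
    · refine (ih hf.2.2 hg.2.2).congr hΩ ?_
      filter_upwards [hf.2.1, hg.2.1] with q h1 h2
      exact (fderiv_add h1 h2).symm

theorem Cls.neg {Ω : Set Q} (hΩ : IsOpen Ω) {q₀ : Q} {f : Q → F} {w : Q → ℝ}
    (hf : Cls (𝓝[Ω] q₀) ν N f w) : Cls (𝓝[Ω] q₀) ν N (fun q => - f q) w := by
  have := Cls.comp_clm (-(ContinuousLinearMap.id ℝ F)) hΩ hf
  simpa using this

theorem Cls.sub {Ω : Set Q} (hΩ : IsOpen Ω) {q₀ : Q} {f g : Q → F} {w : Q → ℝ}
    (hf : Cls (𝓝[Ω] q₀) ν N f w) (hg : Cls (𝓝[Ω] q₀) ν N g w) :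
    Cls (𝓝[Ω] q₀) ν N (fun q => f q - g q) w := by
  simpa [sub_eq_add_neg] using hf.add hΩ (hg.neg hΩ)

theorem Cls.bilin (B : F →L[ℝ] G →L[ℝ] H) {f : Q → F} {g : Q → G} {w₁ w₂ : Q → ℝ}
    {Ω : Set Q} (hΩ : IsOpen Ω) {q₀ : Q}
    (hf : Cls (𝓝[Ω] q₀) ν N f w₁) (hg : Cls (𝓝[Ω] q₀) ν N g w₂) :
    Cls (𝓝[Ω] q₀) ν N (fun q => B (f q) (g q)) (fun q => w₁ q * w₂ q) := by
  induction N generalizing F G H w₁ w₂ with
  | zero =>
    change (fun q => B (f q) (g q)) =O[𝓝[Ω] q₀] _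
    have h1 : (fun q => B (f q) (g q)) =O[𝓝[Ω] q₀] (fun q => ‖f q‖ * ‖g q‖) := by
      refine IsBigO.of_bound ‖B‖ (Eventually.of_forall fun q => ?_)
      have := B.le_opNorm₂ (f q) (g q)
      simpa [mul_assoc] using this
    exact h1.trans ((IsBigO.norm_left hf).mul (IsBigO.norm_left hg))
  | succ N ih =>
    have h0 : (fun q => B (f q) (g q)) =O[𝓝[Ω] q₀] (fun q => w₁ q * w₂ q) := by
      have h1 : (fun q => B (f q) (g q)) =O[𝓝[Ω] q₀] (fun q => ‖f q‖ * ‖g q‖) := by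
        refine IsBigO.of_bound ‖B‖ (Eventually.of_forall fun q => ?_)
        have := B.le_opNorm₂ (f q) (g q)
        simpa [mul_assoc] using this
      exact h1.trans ((IsBigO.norm_left hf.1).mul (IsBigO.norm_left hg.1))
    refine ⟨h0, ?_, ?_⟩
    · filter_upwards [hf.2.1, hg.2.1] with q h1 h2
      exact (B.hasFDerivAt_of_bilinear h1.hasFDerivAt h2.hasFDerivAt).differentiableAt
    · have hR := ih (B.precompR Q) hf.of_succ hg.2.2
      have hL := ih (B.precompL Q) hf.2.2 hg.of_succ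
      have hR' : Cls (𝓝[Ω] q₀) ν N (fun q => B.precompR Q (f q) (fderiv ℝ g q))
          (fun q => w₁ q * w₂ q / ν q) := by
        convert hR using 2
        ring
      have hL' : Cls (𝓝[Ω] q₀) ν N (fun q => B.precompL Q (fderiv ℝ f q) (g q))
          (fun q => w₁ q * w₂ q / ν q) := by
        convert hL using 2
        ring
      refine (hR'.add hΩ hL').congr hΩ ?_
      filter_upwards [hf.2.1, hg.2.1] with q h1 h2
      exact (B.fderiv_of_bilinear h1 h2).symm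

theorem Cls.smul {Ω : Set Q} (hΩ : IsOpen Ω) {q₀ : Q} {f : Q → ℝ} {g : Q → G} {w₁ w₂ : Q → ℝ}
    (hf : Cls (𝓝[Ω] q₀) ν N f w₁) (hg : Cls (𝓝[Ω] q₀) ν N g w₂) :
    Cls (𝓝[Ω] q₀) ν N (fun q => f q • g q) (fun q => w₁ q * w₂ q) :=
  Cls.bilin (ContinuousLinearMap.lsmul ℝ ℝ) hΩ hf hg

theorem Cls.mul {Ω : Set Q} (hΩ : IsOpen Ω) {q₀ : Q} {f : Q → ℝ} {g : Q → ℝ} {w₁ w₂ : Q → ℝ}
    (hf : Cls (𝓝[Ω] q₀) ν N f w₁) (hg : Cls (𝓝[Ω] q₀) ν N g w₂) :
    Cls (𝓝[Ω] q₀) ν N (fun q => f q * g q) (fun q => w₁ q * w₂ q) :=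
  Cls.smul hΩ hf hg

theorem Cls.pow {Ω : Set Q} (hΩ : IsOpen Ω) {q₀ : Q} {f : Q → ℝ} {w : Q → ℝ}
    (hf : Cls (𝓝[Ω] q₀) ν N f w) (j : ℕ) :
    Cls (𝓝[Ω] q₀) ν N (fun q => f q ^ j) (fun q => w q ^ j) := by
  induction j with
  | zero =>
    simp only [pow_zero]
    exact Cls.const _ (isBigO_refl _ _)
  | succ j ih =>
    simp only [pow_succ]
    exact ih.mul hΩ hf

theorem Cls.inv {Ω : Set Q} (hΩ : IsOpen Ω) {q₀ : Q} {f : Q → ℝ} {w : Q → ℝ}
    (hf : Cls (𝓝[Ω] q₀) ν N f w) (hne : ∀ᶠ q in 𝓝[Ω] q₀, f q ≠ 0)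
    (hwne : ∀ᶠ q in 𝓝[Ω] q₀, w q ≠ 0)
    (hinv : (fun q => (f q)⁻¹) =O[𝓝[Ω] q₀] (fun q => (w q)⁻¹)) :
    Cls (𝓝[Ω] q₀) ν N (fun q => (f q)⁻¹) (fun q => (w q)⁻¹) := by
  induction N with
  | zero => exact hinv
  | succ N ih =>
    have ih' := ih hf.of_succ
    refine ⟨hinv, ?_, ?_⟩
    · filter_upwards [hf.2.1, hne] with q h1 h2
      exact h1.inv h2
    · have h3 := ((ih'.mul hΩ ih').smul hΩ hf.2.2).neg hΩ
      have h4 : Cls (𝓝[Ω] q₀) ν N (fun q => -(((f q)⁻¹ * (f q)⁻¹) • fderiv ℝ f q))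
          (fun q => (w q)⁻¹ / ν q) := by
        refine h3.mono_w (EventuallyEq.isBigO ?_)
        filter_upwards [hwne] with q hq
        field_simp
      refine h4.congr hΩ ?_
      filter_upwards [hf.2.1, hne] with q h1 h2
      have := (hasDerivAt_inv h2).comp_hasFDerivAt q h1.hasFDerivAt
      have h5 : fderiv ℝ (fun q => (f q)⁻¹) q = (-(f q ^ 2)⁻¹) • fderiv ℝ f q := this.fderiv
      rw [h5, neg_smul]
      congr 2
      rw [pow_two, mul_inv]

theorem Cls.exp {Ω : Set Q} (hΩ : IsOpen Ω) {q₀ : Q} {f : Q → ℝ}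
    (hf : Cls (𝓝[Ω] q₀) ν N f (fun _ => 1)) :
    Cls (𝓝[Ω] q₀) ν N (fun q => Real.exp (f q)) (fun _ => 1) := by
  have h0 : (fun q => Real.exp (f q)) =O[𝓝[Ω] q₀] (fun _ => (1 : ℝ)) := by
    obtain ⟨C, hC⟩ := hf.isBigO.bound
    refine IsBigO.of_bound (Real.exp C) ?_
    filter_upwards [hC] with q hq
    simp only [Real.norm_eq_abs, Real.abs_exp, norm_one, mul_one] at hq ⊢
    exact Real.exp_le_exp.2 ((le_abs_self _).trans (by simpa using hq))
  induction N with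
  | zero => exact h0
  | succ N ih =>
    have ih' := ih hf.of_succ
    refine ⟨h0, ?_, ?_⟩
    · filter_upwards [hf.2.1] with q h1
      exact h1.exp
    · have h3 := ih'.smul hΩ hf.2.2
      have h4 : Cls (𝓝[Ω] q₀) ν N (fun q => Real.exp (f q) • fderiv ℝ f q)
          (fun q => 1 / ν q) := by simpa using h3
      refine h4.congr hΩ ?_
      filter_upwards [hf.2.1] with q h1
      exact (h1.hasFDerivAt.exp).fderiv.symm

theorem Cls.exp_sub_one {Ω : Set Q} (hΩ : IsOpen Ω) {q₀ : Q} {f : Q → ℝ} {w : Q → ℝ}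
    (hf : Cls (𝓝[Ω] q₀) ν N f w) (hw : w =O[𝓝[Ω] q₀] (fun _ => (1 : ℝ))) :
    Cls (𝓝[Ω] q₀) ν N (fun q => Real.exp (f q) - 1) w := by
  have h0 : (fun q => Real.exp (f q) - 1) =O[𝓝[Ω] q₀] w := by
    refine IsBigO.trans ?_ hf.isBigO
    obtain ⟨C, hC⟩ := (hf.isBigO.trans hw).bound
    refine IsBigO.of_bound (Real.exp |C|) ?_
    filter_upwards [hC] with q hq
    simp only [Real.norm_eq_abs, norm_one, mul_one] at hq ⊢
    have h1 := Real.norm_exp_sub_one_sub_id_le (x := f q)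
    have : |Real.exp (f q) - 1| ≤ |f q| * Real.exp |f q| := by
      rcases le_total 0 (f q) with h | h
      · rw [abs_of_nonneg (by linarith [Real.add_one_le_exp (f q)]), abs_of_nonneg h]
        have := Real.add_one_le_exp (-(f q))
        have h2 : Real.exp (f q) * Real.exp (-(f q)) = 1 := by
          rw [← Real.exp_add]; simp
        nlinarith [Real.exp_pos (f q)]
      · rw [abs_of_nonpos (by linarith [Real.exp_le_one_iff.2 h]), abs_of_nonpos h]
        have h3 := Real.add_one_le_exp (f q)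
        have h4 : 1 ≤ Real.exp (-(f q)) := Real.one_le_exp (by linarith)
        nlinarith
    refine this.trans ?_
    rw [mul_comm]
    have hb : |f q| ≤ |C| := hq.trans (by simpa using le_abs_self C)
    exact mul_le_mul_of_nonneg_right (Real.exp_le_exp.2 hb) (abs_nonneg _)
  cases N with
  | zero => exact h0
  | succ N =>
    refine ⟨h0, ?_, ?_⟩
    · filter_upwards [hf.2.1] with q h1
      exact h1.exp.sub_const 1
    · have h3 := (Cls.exp hΩ (hf.of_succ.mono_w hw)).smul hΩ hf.2.2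
      have h4 : Cls (𝓝[Ω] q₀) ν N (fun q => Real.exp (f q) • fderiv ℝ f q)
          (fun q => w q / ν q) := by simpa using h3
      refine h4.congr hΩ ?_
      filter_upwards [hf.2.1] with q h1
      exact ((h1.hasFDerivAt.exp).sub_const 1).fderiv.symm

end

end Pool.Agent.Lib.MP_4f3c81_gt
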